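import Pool.Agent.U253.SPL.Uni

/-!
# Weights of several tori
-/

set_option autoImplicit false

namespace Pool.Agent.U253.NFD

open Pool.Agent.U253.SPL

section

variable {J V : Type} [Fintype J] [Fintype V] {r : ℕ} {W : J → List (Fin r → ℤ)} {c : J → ℝ}
  {w : V → ℝ}

theorem ct_cons {A : Type*} (φ : (Fin r → ℤ) → A) (μ : Fin r → ℤ) (l : List (Fin r → ℤ)) (z : A) :
    ct φ (μ :: l) z = (open Classical in if φ μ = z then (1 : ℝ) else 0) + ct φ l z := by
  unfold ct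
  rw [List.map_cons, List.sum_cons]

/-- relations are preserved by a map of the values -/
theorem push {A : Type*} {val : V → (Fin r → ℤ) → A} {lev : V → (Fin r → ℤ) → ℤ}
    (h : ∀ u u' : V, ∀ i i' : J, ∀ μ ∈ W i, ∀ μ' ∈ W i', val u μ = val u' μ' → lev u μ = lev u' μ')
    (hz : ∀ z : A, ∑ u, w u * ∑ j, c j * ct (val u) (W j) z = 0) (t : ℤ) :
    ∑ u, w u * ∑ j, c j * ct (lev u) (W j) t = 0 := by
  classical
  set U : Finset (Fin r → ℤ) := Finset.univ.biUnion fun j => (W j).toFinset with hU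
  have hUm : ∀ μ, μ ∈ U ↔ ∃ j, μ ∈ W j := by
    intro μ
    rw [hU, Finset.mem_biUnion]
    constructor
    · rintro ⟨j, -, hj⟩
      exact ⟨j, List.mem_toFinset.1 hj⟩
    · rintro ⟨j, hj⟩
      exact ⟨j, Finset.mem_univ _, List.mem_toFinset.2 hj⟩
  set Z : Finset A := (((Finset.univ : Finset V) ×ˢ U).filter fun q => lev q.1 q.2 = t).image
    fun q => val q.1 q.2 with hZ
  have key : ∀ (u : V) (l : List (Fin r → ℤ)), (∀ μ ∈ l, μ ∈ U) →
      ct (lev u) l t = ∑ z ∈ Z, ct (val u) l z := by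
    intro u l
    induction l with
    | nil =>
      intro _
      simp [ct]
    | cons μ l ih =>
      intro hl
      rw [ct_cons, ih fun μ' h' => hl μ' (List.mem_cons_of_mem _ h')]
      simp only [ct_cons]
      rw [Finset.sum_add_distrib]
      congr 1
      have hμU : μ ∈ U := hl μ List.mem_cons_self
      by_cases h1 : lev u μ = t
      · rw [if_pos h1, Finset.sum_ite_eq, if_pos]
        exact Finset.mem_image.2 ⟨(u, μ), Finset.mem_filter.2 ⟨Finset.mem_product.2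
          ⟨Finset.mem_univ _, hμU⟩, h1⟩, rfl⟩
      · rw [if_neg h1, Finset.sum_ite_eq, if_neg]
        intro h2
        obtain ⟨⟨u', μ'⟩, h3, h4⟩ := Finset.mem_image.1 h2
        rw [Finset.mem_filter, Finset.mem_product] at h3
        obtain ⟨i, hi⟩ := (hUm μ).1 hμU
        obtain ⟨i', hi'⟩ := (hUm μ').1 h3.1.2
        apply h1
        rw [h u u' i i' μ hi μ' hi' h4.symm]
        exact h3.2
  have h1 : ∀ u, w u * ∑ j, c j * ct (lev u) (W j) t =
      ∑ z ∈ Z, w u * ∑ j, c j * ct (val u) (W j) z := by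
    intro u
    rw [← Finset.mul_sum, Finset.sum_comm]
    congr 1
    refine Finset.sum_congr rfl fun j _ => ?_
    rw [key u (W j) fun μ hμ => (hUm μ).2 ⟨j, hμ⟩, Finset.mul_sum]
  rw [Finset.sum_congr rfl fun u _ => h1 u, Finset.sum_comm]
  exact Finset.sum_eq_zero fun z _ => hz z

/-- total multiplicity -/
theorem ct_total {φ : (Fin r → ℤ) → ℤ} {T : Finset ℤ} (l : List (Fin r → ℤ))
    (h : ∀ μ ∈ l, φ μ ∈ T) : ∑ t ∈ T, ct φ l t = l.length := by
  classical
  induction l with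
  | nil => simp [ct]
  | cons μ l ih =>
    simp only [ct_cons]
    rw [Finset.sum_add_distrib, ih fun μ' h' => h μ' (List.mem_cons_of_mem _ h'),
      List.length_cons, add_comm]
    push_cast
    congr 1
    rw [Finset.sum_eq_single (φ μ)]
    · exact if_pos rfl
    · intro t _ ht
      exact if_neg (Ne.symm ht)
    · intro h0
      exact absurd (h μ List.mem_cons_self) h0

/-- constant levels -/
theorem ct_const {φ : (Fin r → ℤ) → ℤ} {s : ℤ} (l : List (Fin r → ℤ)) (h : ∀ μ ∈ l, φ μ = s)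
    (t : ℤ) : ct φ l t = if s = t then (l.length : ℝ) else 0 := by
  classical
  induction l with
  | nil => simp [ct]
  | cons μ l ih =>
    rw [ct_cons, ih fun μ' h' => h μ' (List.mem_cons_of_mem _ h'), h μ List.mem_cons_self]
    by_cases hst : s = t
    · rw [if_pos hst, if_pos hst, if_pos hst, List.length_cons]
      push_cast
      ring
    · rw [if_neg hst, if_neg hst, if_neg hst, add_zero]

/-- the total multiplicity vanishes -/
theorem total_zero [Nonempty V] (hw : ∀ v, 0 < w v) {a : V → Fin r → ℤ}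
    (hS : ∀ t : ℤ, ∑ u, w u * ∑ j, c j * ct (dt (a u)) (W j) t = 0) :
    ∑ j, c j * ((W j).length : ℝ) = 0 := by
  classical
  set T : Finset ℤ := (Finset.univ : Finset V).biUnion fun u => Finset.univ.biUnion fun j =>
    (W j).toFinset.image (dt (a u)) with hT
  have hmem : ∀ u j, ∀ μ ∈ W j, dt (a u) μ ∈ T := by
    intro u j μ hμ
    exact Finset.mem_biUnion.2 ⟨u, Finset.mem_univ _, Finset.mem_biUnion.2 ⟨j, Finset.mem_univ _,
      Finset.mem_image.2 ⟨μ, List.mem_toFinset.2 hμ, rfl⟩⟩⟩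
  have h1 : ∑ t ∈ T, ∑ u, w u * ∑ j, c j * ct (dt (a u)) (W j) t = 0 :=
    Finset.sum_eq_zero fun t _ => hS t
  rw [Finset.sum_comm] at h1
  have h2 : ∀ u, ∑ t ∈ T, w u * ∑ j, c j * ct (dt (a u)) (W j) t =
      w u * ∑ j, c j * ((W j).length : ℝ) := by
    intro u
    rw [← Finset.mul_sum, Finset.sum_comm]
    congr 1
    refine Finset.sum_congr rfl fun j _ => ?_
    rw [← Finset.mul_sum, ct_total (W j) (hmem u j)]
  rw [Finset.sum_congr rfl fun u _ => h2 u, ← Finset.sum_mul] at h1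
  refine (mul_eq_zero.1 h1).resolve_left ?_
  exact (Finset.sum_pos (fun v _ => hw v) Finset.univ_nonempty).ne'

/-- **levels are constant** -/
theorem lev_const (hdom : Dom W c) (hw : ∀ v, 0 < w v) {a : V → Fin r → ℤ}
    (hS : ∀ t : ℤ, ∑ u, w u * ∑ j, c j * ct (dt (a u)) (W j) t = 0) (u : V) (i j : J)
    (μ : Fin r → ℤ) (hμ : μ ∈ W i) (μ' : Fin r → ℤ) (hμ' : μ' ∈ W j) :
    dt (a u) μ = dt (a u) μ' := by
  classical
  by_contra hne
  have : Nonempty V := ⟨u⟩
  have hP := total_zero hw hS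
  set U : Finset (Fin r → ℤ) := Finset.univ.biUnion fun j => (W j).toFinset with hU
  have hUm : ∀ μ, μ ∈ U ↔ ∃ j, μ ∈ W j := by
    intro μ
    rw [hU, Finset.mem_biUnion]
    constructor
    · rintro ⟨j, -, hj⟩
      exact ⟨j, List.mem_toFinset.1 hj⟩
    · rintro ⟨j, hj⟩
      exact ⟨j, Finset.mem_univ _, List.mem_toFinset.2 hj⟩
  set NC : V → Prop := fun u => ∃ i, ∃ j, ∃ μ ∈ W i, ∃ μ' ∈ W j, dt (a u) μ ≠ dt (a u) μ' with hNC
  have hu : NC u := ⟨i, j, μ, hμ, μ', hμ', hne⟩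
  obtain ⟨⟨u₁, m₁⟩, hm₁, hmax⟩ := Finset.exists_max_image
    (((Finset.univ.filter NC) : Finset V) ×ˢ U) (fun q => dt (a q.1) q.2)
    ⟨(u, μ), Finset.mem_product.2 ⟨Finset.mem_filter.2 ⟨Finset.mem_univ _, hu⟩,
      (hUm μ).2 ⟨i, hμ⟩⟩⟩
  rw [Finset.mem_product, Finset.mem_filter] at hm₁
  obtain ⟨⟨-, hu₁⟩, hm₁U⟩ := hm₁
  obtain ⟨j₁, hj₁⟩ := (hUm m₁).1 hm₁U
  set t : ℤ := dt (a u₁) m₁ with ht
  have hle : ∀ v, NC v → ∀ i', ∀ μ₂ ∈ W i', dt (a v) μ₂ ≤ t := fun v hv i' μ₂ h2 =>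
    hmax (v, μ₂) (Finset.mem_product.2 ⟨Finset.mem_filter.2 ⟨Finset.mem_univ _, hv⟩,
      (hUm μ₂).2 ⟨i', h2⟩⟩)
  have hterm : ∀ v, NC v → ∀ j', 0 ≤ c j' * ct (dt (a v)) (W j') t := by
    intro v hv j'
    by_cases h0 : ct (dt (a v)) (W j') t = 0
    · rw [h0, mul_zero]
    · obtain ⟨m', hm', h3⟩ := ct_ne h0
      have h4 : 0 < c j' := hdom (a v) hv j' m' hm' fun i' μ₂ h2 => by
        rw [h3]
        exact hle v hv i' μ₂ h2
      exact mul_nonneg h4.le (ct_nonneg _ _ _)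
  have h1 := hS t
  have h2 : 0 < ∑ v, w v * ∑ j, c j * ct (dt (a v)) (W j) t := by
    refine Finset.sum_pos' (fun v _ => ?_) ⟨u₁, Finset.mem_univ _, ?_⟩
    · refine mul_nonneg (hw v).le ?_
      by_cases hv : NC v
      · exact Finset.sum_nonneg fun j' _ => hterm v hv j'
      · refine le_of_eq ?_
        rw [hNC] at hv
        push Not at hv
        have h5 : ∀ j', ct (dt (a v)) (W j') t =
            if dt (a v) μ = t then ((W j').length : ℝ) else 0 := fun j' =>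
          ct_const (W j') (fun m' hm' => hv j' i m' hm' μ hμ) t
        simp only [h5]
        by_cases h6 : dt (a v) μ = t
        · simp only [if_pos h6]
          exact hP.symm
        · simp only [if_neg h6, mul_zero, Finset.sum_const_zero]
    · refine mul_pos (hw u₁) ?_
      refine Finset.sum_pos' (fun j' _ => hterm u₁ hu₁ j') ⟨j₁, Finset.mem_univ _, ?_⟩
      exact mul_pos (hdom (a u₁) hu₁ j₁ m₁ hj₁ fun i' μ₂ h2 => hle u₁ hu₁ i' μ₂ h2) (ct_pos hj₁ rfl)
  linarith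

variable (V r) in
/-- the numbering of the coordinates -/
noncomputable def enu : V × Fin r ≃ Fin (Fintype.card (V × Fin r)) := Fintype.equivFin _

/-- the inclusion of one torus -/
noncomputable def inc (v : V) (μ : Fin r → ℤ) : Fin (Fintype.card (V × Fin r)) → ℤ :=
  open Classical in fun s => if ((enu V r).symm s).1 = v then μ ((enu V r).symm s).2 else 0

theorem inc_apply (v u : V) (μ : Fin r → ℤ) (k : Fin r) :
    inc v μ (enu V r (u, k)) = (open Classical in if u = v then μ k else 0) := by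
  unfold inc
  rw [Equiv.symm_apply_apply]

theorem dt_inc (a : Fin (Fintype.card (V × Fin r)) → ℤ) (v : V) (μ : Fin r → ℤ) :
    dt a (inc v μ) = dt (fun k => a (enu V r (v, k))) μ := by
  classical
  unfold dt
  rw [← Equiv.sum_comp (enu V r) fun s => a s * inc v μ s, Fintype.sum_prod_type]
  simp only [inc_apply]
  rw [Finset.sum_eq_single v]
  · exact Finset.sum_congr rfl fun k _ => by rw [if_pos rfl]
  · intro u _ hu
    exact Finset.sum_eq_zero fun k _ => by rw [if_neg hu, mul_zero]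
  · intro h
    exact absurd (Finset.mem_univ _) h

/-- the homomorphism on the product -/
noncomputable def tot {A : Type*} [AddCommGroup A] (φ : V → (Fin r → ℤ) →+ A) :
    (Fin (Fintype.card (V × Fin r)) → ℤ) →+ A where
  toFun m := ∑ v, φ v fun k => m (enu V r (v, k))
  map_zero' := Finset.sum_eq_zero fun v _ => map_zero (φ v)
  map_add' m m' := by
    rw [← Finset.sum_add_distrib]
    exact Finset.sum_congr rfl fun v _ => map_add (φ v) _ _

theorem tot_inc {A : Type*} [AddCommGroup A] (φ : V → (Fin r → ℤ) →+ A) (v : V) (μ : Fin r → ℤ) :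
    tot φ (inc v μ) = φ v μ := by
  classical
  show ∑ u, φ u (fun k => inc v μ (enu V r (u, k))) = φ v μ
  simp only [inc_apply]
  rw [Finset.sum_eq_single v]
  · congr 1
    funext k
    rw [if_pos rfl]
  · intro u _ hu
    have : (fun k => if u = v then μ k else 0) = (0 : Fin r → ℤ) := by
      funext k
      rw [if_neg hu]
      rfl
    rw [this, map_zero]
  · intro h
    exact absurd (Finset.mem_univ _) h

/-- **uniform torsion for several tori** -/
theorem abs_uniform (hdom : Dom W c) (hw : ∀ v, 0 < w v) : ∃ m : ℕ, 0 < m ∧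
    ∀ (A : Type) [AddCommGroup A] (φ : V → (Fin r → ℤ) →+ A),
      (∀ z : A, ∑ u, w u * ∑ j, c j * ct (φ u) (W j) z = 0) →
      ∀ u i j, ∀ μ ∈ W i, ∀ μ' ∈ W j, m • φ u μ = m • φ u μ' := by
  classical
  set U : Finset (Fin r → ℤ) := Finset.univ.biUnion fun j => (W j).toFinset with hU
  have hUm : ∀ μ, μ ∈ U ↔ ∃ j, μ ∈ W j := by
    intro μ
    rw [hU, Finset.mem_biUnion]
    constructor
    · rintro ⟨j, -, hj⟩
      exact ⟨j, List.mem_toFinset.1 hj⟩
    · rintro ⟨j, hj⟩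
      exact ⟨j, Finset.mem_univ _, List.mem_toFinset.2 hj⟩
  set T : Finset (V × (Fin r → ℤ)) := Finset.univ ×ˢ U with hT
  set G : Finset ((V × (Fin r → ℤ)) × (V × (Fin r → ℤ))) →
      AddSubgroup (Fin (Fintype.card (V × Fin r)) → ℤ) := fun F =>
    AddSubgroup.closure {d | ∃ q ∈ F, d = inc q.1.1 q.1.2 - inc q.2.1 q.2.2} with hG
  have key : ∀ (F : Finset ((V × (Fin r → ℤ)) × (V × (Fin r → ℤ)))) (v : V)
      (q : (Fin r → ℤ) × (Fin r → ℤ)),
      ∃ n : ℕ, 0 < n ∧ ((∃ (A : Type) (_ : AddCommGroup A) (φ : V → (Fin r → ℤ) →+ A),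
        (∀ z : A, ∑ u, w u * ∑ j, c j * ct (φ u) (W j) z = 0) ∧
        (T ×ˢ T).filter (fun q => φ q.1.1 q.1.2 = φ q.2.1 q.2.2) = F) → q ∈ U ×ˢ U →
        n • (inc v q.1 - inc v q.2) ∈ G F) := by
    intro F v q
    by_cases hF : (∃ (A : Type) (_ : AddCommGroup A) (φ : V → (Fin r → ℤ) →+ A),
        (∀ z : A, ∑ u, w u * ∑ j, c j * ct (φ u) (W j) z = 0) ∧
        (T ×ˢ T).filter (fun q => φ q.1.1 q.1.2 = φ q.2.1 q.2.2) = F) ∧ q ∈ U ×ˢ U
    · obtain ⟨⟨A, hA, φ, hz, hφF⟩, hq⟩ := hF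
      by_contra hcon
      push Not at hcon
      have hd : ∀ n : ℕ, 0 < n → QuotientAddGroup.mk' (G F) (n • (inc v q.1 - inc v q.2)) ≠ 0 := by
        intro n hn h0
        exact (hcon n hn).2.2 ((QuotientAddGroup.eq_zero_iff _).1 h0)
      obtain ⟨a, ha, had⟩ := fun_sep (QuotientAddGroup.mk' (G F)) hd
      have ha' : ∀ m ∈ G F, dt a m = 0 := fun m hm => ha m ((QuotientAddGroup.eq_zero_iff _).2 hm)
      have hne : dt (fun k => a (enu V r (v, k))) q.1 ≠ dt (fun k => a (enu V r (v, k))) q.2 := by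
        rw [dt_sub, dt_inc, dt_inc] at had
        exact sub_ne_zero.1 had
      rw [Finset.mem_product] at hq
      obtain ⟨i, hi⟩ := (hUm _).1 hq.1
      obtain ⟨i', hi'⟩ := (hUm _).1 hq.2
      refine hne (lev_const (a := fun u k => a (enu V r (u, k))) hdom hw (fun t => ?_) v i i' q.1 hi
        q.2 hi')
      refine push (val := fun u μ => φ u μ) (fun u u' i₁ i₂ μ₁ h₁ μ₂ h₂ h3 => ?_) hz t
      have h4 : inc u μ₁ - inc u' μ₂ ∈ G F := by
        refine AddSubgroup.subset_closure ⟨((u, μ₁), (u', μ₂)), ?_, rfl⟩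
        rw [← hφF, Finset.mem_filter, Finset.mem_product]
        exact ⟨⟨Finset.mem_product.2 ⟨Finset.mem_univ _, (hUm _).2 ⟨i₁, h₁⟩⟩,
          Finset.mem_product.2 ⟨Finset.mem_univ _, (hUm _).2 ⟨i₂, h₂⟩⟩⟩, h3⟩
      have h5 := ha' _ h4
      rw [dt_sub, dt_inc, dt_inc] at h5
      exact sub_eq_zero.1 h5
    · exact ⟨1, one_pos, fun h1 h2 => absurd ⟨h1, h2⟩ hF⟩
  choose n hn hnG using key
  refine ⟨∏ F ∈ (T ×ˢ T).powerset, ∏ v : V, ∏ q ∈ U ×ˢ U, n F v q,
    Finset.prod_pos fun F _ => Finset.prod_pos fun v _ => Finset.prod_pos fun q _ => hn F v q, ?_⟩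
  intro A hA φ hz u i j μ hμ μ' hμ'
  have hq : (μ, μ') ∈ U ×ˢ U := Finset.mem_product.2 ⟨(hUm _).2 ⟨i, hμ⟩, (hUm _).2 ⟨j, hμ'⟩⟩
  set F := (T ×ˢ T).filter (fun q => φ q.1.1 q.1.2 = φ q.2.1 q.2.2) with hFdef
  have hF : F ∈ (T ×ˢ T).powerset := Finset.mem_powerset.2 (Finset.filter_subset _ _)
  have h1 := hnG F u (μ, μ') ⟨A, hA, φ, hz, hFdef.symm⟩ hq
  have h2 : G F ≤ (tot φ).ker := by
    rw [hG]
    refine (AddSubgroup.closure_le _).2 ?_
    rintro d ⟨q, hq, rfl⟩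
    have h3 := (Finset.mem_filter.1 hq).2
    show tot φ (inc q.1.1 q.1.2 - inc q.2.1 q.2.2) = 0
    rw [map_sub, tot_inc, tot_inc, h3, sub_self]
  have h3 : tot φ (n F u (μ, μ') • (inc u μ - inc u μ')) = 0 := h2 h1
  rw [map_nsmul, map_sub, nsmul_sub, sub_eq_zero, tot_inc, tot_inc] at h3
  obtain ⟨e, he⟩ : n F u (μ, μ') ∣ ∏ F ∈ (T ×ˢ T).powerset, ∏ v : V, ∏ q ∈ U ×ˢ U, n F v q :=
    ((Finset.dvd_prod_of_mem (fun q => n F u q) hq).trans
      (Finset.dvd_prod_of_mem (fun v => ∏ q ∈ U ×ˢ U, n F v q) (Finset.mem_univ u))).trans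
      (Finset.dvd_prod_of_mem (fun F => ∏ v : V, ∏ q ∈ U ×ˢ U, n F v q) hF)
  rw [he, mul_nsmul, mul_nsmul]
  exact congrArg (fun y => e • y) h3

end

end Pool.Agent.U253.NFD
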