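import Pool.Agent.U253.NFD.Core

/-!
# The archimedean places of a number field
-/

set_option autoImplicit false

namespace Pool.Agent.U253.NFD

open Filter Topology Complex Pool.Agent.N210.FV Pool.Agent.N210.FW Pool.Agent.N845.SP
open Pool.Agent.U253.SPL Pool.Agent.U253.GAP
open Pool.Agent.U253.EEA (Half FEq mo_app)

variable {J E : Type} [Fintype J] [Fintype E] {r : ℕ} {W : J → List (Fin r → ℤ)} {c : J → ℝ}

theorem arch_rel3 {lam : E → Fin r → ℂ} {m m' : J → List ℂ}
    (hm : ∀ j (z : ℂ), ((m j).map (con z)).sum + ((m' j).map (con z)).sum =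
      ∑ τ, ((W j).map fun μ => Tc z (dc (lam τ) μ)).sum)
    (h : ∀ z : ℂ, ∑ j, c j * (((mo (gi (m j)) (1 - z) : ℝ) + mo (gi (m' j)) (1 - z)) -
      (mo (gi (m j)) z + mo (gi (m' j)) z)) = 0) (z : ℂ) :
    ∑ j, c j * ∑ τ, (ct (dc (lam τ)) (W j) z + ct (fun μ => -dc (lam τ) μ) (W j) z) = 0 := by
  classical
  set Ψ : ℂ → ℝ := fun z => ∑ j, c j * ∑ τ, (ct (dc (lam τ)) (W j) z +
    ct (fun μ => -dc (lam τ) μ) (W j) z) with hΨ
  have h1 : ∀ z, Ψ (z - 1) + Ψ (z - 2) = 0 := by
    intro z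
    have h2 := h z
    have h3 := h (z - 2)
    rw [← sub_eq_zero.2 (h2.trans h3.symm)]
    simp only [hΨ]
    rw [← Finset.sum_add_distrib, ← Finset.sum_sub_distrib]
    refine Finset.sum_congr rfl fun j _ => ?_
    rw [← mul_add, ← mul_sub, ← Finset.sum_add_distrib,
      Finset.sum_congr rfl fun τ _ => (ct_sum (lam τ) (W j) z).symm, ← hm j z]
    have e1 := gi_diff2 (m j) z
    have e2 := gi_diff2 (m' j) z
    have e3 : ((m j).map (con z)).sum = ((m j).map fun m => (open Classical in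
      (if z = 1 + m then (1 : ℝ) else 0) + if z = 2 - m then 1 else 0)).sum := rfl
    have e4 : ((m' j).map (con z)).sum = ((m' j).map fun m => (open Classical in
      (if z = 1 + m then (1 : ℝ) else 0) + if z = 2 - m then 1 else 0)).sum := rfl
    rw [e3, e4, ← e1, ← e2]
    congr 1
    ring
  obtain ⟨C, hC⟩ : ∃ C : ℝ, ∀ τ j, ∀ μ ∈ W j, |(dc (lam τ) μ).re| ≤ C := by
    refine ⟨∑ τ, ∑ j, ((W j).map fun μ => |(dc (lam τ) μ).re|).sum, fun τ j μ hμ => ?_⟩
    have h0 : ∀ τ j, 0 ≤ ((W j).map fun μ => |(dc (lam τ) μ).re|).sum := by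
      intro τ j
      refine List.sum_nonneg fun y hy => ?_
      rw [List.mem_map] at hy
      obtain ⟨μ', -, rfl⟩ := hy
      exact abs_nonneg _
    have h2 : |(dc (lam τ) μ).re| ≤ ((W j).map fun μ => |(dc (lam τ) μ).re|).sum := by
      refine List.single_le_sum (fun y hy => ?_) _ (List.mem_map.2 ⟨μ, hμ, rfl⟩)
      rw [List.mem_map] at hy
      obtain ⟨μ', -, rfl⟩ := hy
      exact abs_nonneg _
    have h3 : ((W j).map fun μ => |(dc (lam τ) μ).re|).sum ≤
        ∑ j, ((W j).map fun μ => |(dc (lam τ) μ).re|).sum :=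
      Finset.single_le_sum (f := fun j => ((W j).map fun μ => |(dc (lam τ) μ).re|).sum)
        (fun j _ => h0 τ j) (Finset.mem_univ j)
    have h4 : ∑ j, ((W j).map fun μ => |(dc (lam τ) μ).re|).sum ≤
        ∑ τ, ∑ j, ((W j).map fun μ => |(dc (lam τ) μ).re|).sum :=
      Finset.single_le_sum (f := fun τ => ∑ j, ((W j).map fun μ => |(dc (lam τ) μ).re|).sum)
        (fun τ _ => Finset.sum_nonneg fun j _ => h0 τ j) (Finset.mem_univ τ)
    exact h2.trans (h3.trans h4)
  have h2 : ∀ z : ℂ, z.re < -C → Ψ z = 0 := by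
    intro z hz
    refine Finset.sum_eq_zero fun j _ => ?_
    rw [Finset.sum_eq_zero fun τ _ => ?_, mul_zero]
    have a1 : ct (dc (lam τ)) (W j) z = 0 := by
      by_contra h0
      obtain ⟨μ, hμ, h3⟩ := ct_ne h0
      have h4 := hC τ j μ hμ
      rw [h3] at h4
      have := neg_abs_le z.re
      linarith
    have a2 : ct (fun μ => -dc (lam τ) μ) (W j) z = 0 := by
      by_contra h0
      obtain ⟨μ, hμ, h3⟩ := ct_ne h0
      have h4 := hC τ j μ hμ
      have h5 : (dc (lam τ) μ).re = -z.re := by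
        rw [← h3, neg_re, neg_neg]
      rw [h5] at h4
      have := le_abs_self (-z.re)
      linarith
    rw [a1, a2, add_zero]
  have h3 : ∀ (n : ℕ) (z : ℂ), z.re - n < -C → Ψ z = 0 := by
    intro n
    induction n with
    | zero =>
      intro z hz
      exact h2 z (by simpa using hz)
    | succ n ih =>
      intro z hz
      have h4 := h1 (z + 1)
      have e1 : z + 1 - 1 = z := by ring
      have e2 : z + 1 - 2 = z - 1 := by ring
      rw [e1, e2, ih (z - 1) (by
        rw [sub_re, one_re]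
        push_cast at hz
        linarith), add_zero] at h4
      exact h4
  obtain ⟨n, hn⟩ := exists_nat_gt (z.re + C)
  exact h3 n z (by linarith)

/-- the homomorphism given by the exponents -/
noncomputable def dcHom (ν : Fin r → ℂ) : (Fin r → ℤ) →+ ℂ where
  toFun := dc ν
  map_zero' := by simp [dc]
  map_add' μ μ' := by
    simp only [dc, Pi.add_apply, ← Finset.sum_add_distrib]
    refine Finset.sum_congr rfl fun k _ => ?_
    push_cast
    ring

/-- **the archimedean exponents are constant** -/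
theorem arch_const (hdom : Dom W c) {lam : E → Fin r → ℂ}
    (h : ∀ z : ℂ, ∑ j, c j * ∑ τ, (ct (dc (lam τ)) (W j) z + ct (fun μ => -dc (lam τ) μ) (W j) z) = 0)
    (τ : E) {i j : J} {μ μ' : Fin r → ℤ} (hμ : μ ∈ W i) (hμ' : μ' ∈ W j) :
    dc (lam τ) μ = dc (lam τ) μ' := by
  classical
  obtain ⟨m, hm, hall⟩ := abs_uniform (V := E × Bool) (w := fun _ => 1) hdom fun _ => one_pos
  have h1 := hall ℂ (fun q => if q.2 then dcHom (lam q.1) else -dcHom (lam q.1)) (fun z => by
    rw [← h z]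
    simp only [one_mul]
    rw [Finset.sum_comm]
    refine Finset.sum_congr rfl fun j _ => ?_
    rw [← Finset.mul_sum, Fintype.sum_prod_type]
    congr 1
    refine Finset.sum_congr rfl fun τ _ => ?_
    rw [Fintype.sum_bool]
    rfl) (τ, true) i j μ hμ μ' hμ'
  simp only [if_true, nsmul_eq_mul] at h1
  have hm' : (m : ℂ) ≠ 0 := by exact_mod_cast hm.ne'
  exact mul_left_cancel₀ hm' h1

end Pool.Agent.U253.NFD
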