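import Pool.Agent.U253.SPL.LAlg

/-!
# Roots of the parameters at places of higher degree
-/

set_option autoImplicit false

namespace Pool.Agent.U253.NFD

open Filter Topology Complex Pool.Agent.N210.FV Pool.Agent.N210.FW Pool.Agent.N845.SP
open Pool.Agent.U253.SPL Pool.Agent.U253.GAP
open Pool.Agent.U253.EEA (Half FEq)

/-- a root -/
noncomputable def rt (f : ℕ) (y : ℂ) : ℂ := y ^ ((f : ℂ)⁻¹)

theorem rt_pow {f : ℕ} (hf : 0 < f) (y : ℂ) : rt f y ^ f = y := Complex.cpow_nat_inv_pow y hf.ne'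

/-- all roots -/
noncomputable def blk (f : ℕ) (y : ℂ) : List ℂ :=
  (Polynomial.nthRootsFinset f (1 : ℂ)).toList.map fun ζ => ζ * rt f y

theorem blk_pow {f : ℕ} (hf : 0 < f) {y b : ℂ} (hb : b ∈ blk f y) : b ^ f = y := by
  unfold blk at hb
  rw [List.mem_map] at hb
  obtain ⟨ζ, hζ, rfl⟩ := hb
  rw [Finset.mem_toList, Polynomial.mem_nthRootsFinset hf] at hζ
  rw [mul_pow, hζ, one_mul, rt_pow hf]

theorem blk_len {f : ℕ} (hf : 0 < f) (y : ℂ) : (blk f y).length = f := by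
  unfold blk
  rw [List.length_map, Finset.length_toList]
  exact (Complex.isPrimitiveRoot_exp f hf.ne').card_nthRootsFinset

theorem prod_one_sub {f : ℕ} (hf : 0 < f) (y : ℂ) :
    ∏ ζ ∈ Polynomial.nthRootsFinset f (1 : ℂ), (1 - ζ * y) = 1 - y ^ f := by
  have := (Complex.isPrimitiveRoot_exp f hf.ne').pow_sub_pow_eq_prod_sub_mul 1 y hf
  rw [one_pow] at this
  exact this.symm

theorem roots_inv {f : ℕ} (hf : 0 < f) {ζ : ℂ} (h : ζ ∈ Polynomial.nthRootsFinset f (1 : ℂ)) :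
    ζ⁻¹ ∈ Polynomial.nthRootsFinset f (1 : ℂ) := by
  rw [Polynomial.mem_nthRootsFinset hf] at h ⊢
  rw [inv_pow, h, inv_one]

theorem prod_inv_sub {f : ℕ} (hf : 0 < f) (y : ℂ) :
    ∏ ζ ∈ Polynomial.nthRootsFinset f (1 : ℂ), (1 - ζ⁻¹ * y) = 1 - y ^ f := by
  rw [← prod_one_sub hf y]
  exact Finset.prod_nbij' (fun ζ => ζ⁻¹) (fun ζ => ζ⁻¹) (fun ζ h => roots_inv hf h)
    (fun ζ h => roots_inv hf h) (fun ζ _ => inv_inv ζ) (fun ζ _ => inv_inv ζ) (fun ζ _ => rfl)

theorem blk_prod {f : ℕ} (hf : 0 < f) (y T : ℂ) :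
    ((blk f y).map fun b => (1 - b * T)⁻¹).prod = (1 - y * T ^ f)⁻¹ := by
  unfold blk
  rw [List.map_map]
  have h1 : (((Polynomial.nthRootsFinset f (1 : ℂ)).toList.map
      ((fun b => (1 - b * T)⁻¹) ∘ fun ζ => ζ * rt f y))).prod =
      ∏ ζ ∈ Polynomial.nthRootsFinset f (1 : ℂ), (1 - ζ * (rt f y * T))⁻¹ := by
    rw [Finset.prod_map_toList]
    refine Finset.prod_congr rfl fun ζ _ => ?_
    rw [Function.comp_apply, mul_assoc]
  rw [h1, Finset.prod_inv_distrib, prod_one_sub hf, mul_pow, rt_pow hf]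

theorem blk_prod_inv {f : ℕ} (hf : 0 < f) (y T : ℂ) :
    ((blk f y).map fun b => (1 - b⁻¹ * T)⁻¹).prod = (1 - y⁻¹ * T ^ f)⁻¹ := by
  unfold blk
  rw [List.map_map]
  have h1 : (((Polynomial.nthRootsFinset f (1 : ℂ)).toList.map
      ((fun b => (1 - b⁻¹ * T)⁻¹) ∘ fun ζ => ζ * rt f y))).prod =
      ∏ ζ ∈ Polynomial.nthRootsFinset f (1 : ℂ), (1 - ζ⁻¹ * ((rt f y)⁻¹ * T))⁻¹ := by
    rw [Finset.prod_map_toList]
    refine Finset.prod_congr rfl fun ζ _ => ?_
    rw [Function.comp_apply, mul_inv, mul_assoc]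
  rw [h1, Finset.prod_inv_distrib, prod_inv_sub hf, mul_pow, inv_pow, rt_pow hf]

theorem sum_roots {f : ℕ} (hf : 1 < f) : ∑ ζ ∈ Polynomial.nthRootsFinset f (1 : ℂ), ζ = 0 := by
  have hf0 : 0 < f := by omega
  have hz := Complex.isPrimitiveRoot_exp f hf0.ne'
  set z := Complex.exp (2 * Real.pi * I / f) with hzdef
  have hz0 : z ≠ 0 := Complex.exp_ne_zero _
  have hz1 : z ≠ 1 := hz.ne_one hf
  have h1 : z * ∑ ζ ∈ Polynomial.nthRootsFinset f (1 : ℂ), ζ =
      ∑ ζ ∈ Polynomial.nthRootsFinset f (1 : ℂ), ζ := by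
    rw [Finset.mul_sum]
    refine Finset.sum_nbij' (fun ζ => z * ζ) (fun ζ => z⁻¹ * ζ) (fun ζ h => ?_) (fun ζ h => ?_)
      (fun ζ _ => inv_mul_cancel_left₀ hz0 ζ) (fun ζ _ => mul_inv_cancel_left₀ hz0 ζ) (fun ζ _ => rfl)
    · rw [Polynomial.mem_nthRootsFinset hf0] at h ⊢
      rw [mul_pow, hz.pow_eq_one, one_mul, h]
    · rw [Polynomial.mem_nthRootsFinset hf0] at h ⊢
      rw [mul_pow, inv_pow, hz.pow_eq_one, inv_one, one_mul, h]
  have h2 : (z - 1) * ∑ ζ ∈ Polynomial.nthRootsFinset f (1 : ℂ), ζ = 0 := by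
    rw [sub_mul, one_mul, h1, sub_self]
  exact (mul_eq_zero.1 h2).resolve_left (sub_ne_zero.2 hz1)

theorem roots_one : Polynomial.nthRootsFinset 1 (1 : ℂ) = {1} := by
  ext ζ
  rw [Polynomial.mem_nthRootsFinset one_pos, pow_one, Finset.mem_singleton]

theorem blk_sum {f : ℕ} (hf : 0 < f) (y : ℂ) : (blk f y).sum = if f = 1 then y else 0 := by
  unfold blk
  rw [Finset.sum_map_toList, ← Finset.sum_mul]
  by_cases h : f = 1
  · rw [if_pos h]
    subst h
    rw [roots_one, Finset.sum_singleton, one_mul]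
    have := rt_pow one_pos y
    rwa [pow_one] at this
  · rw [if_neg h, sum_roots (by omega), zero_mul]

theorem blk_sum_inv {f : ℕ} (hf : 0 < f) (y : ℂ) :
    ((blk f y).map fun b => b⁻¹).sum = if f = 1 then y⁻¹ else 0 := by
  unfold blk
  rw [List.map_map, Finset.sum_map_toList]
  have h1 : ∑ ζ ∈ Polynomial.nthRootsFinset f (1 : ℂ), ((fun b => b⁻¹) ∘ fun ζ => ζ * rt f y) ζ =
      (∑ ζ ∈ Polynomial.nthRootsFinset f (1 : ℂ), ζ) * (rt f y)⁻¹ := by
    rw [Finset.sum_mul]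
    refine Finset.sum_nbij' (fun ζ => ζ⁻¹) (fun ζ => ζ⁻¹) (fun ζ h => roots_inv hf h)
      (fun ζ h => roots_inv hf h) (fun ζ _ => inv_inv ζ) (fun ζ _ => inv_inv ζ) (fun ζ _ => ?_)
    rw [Function.comp_apply, mul_inv]
  rw [h1]
  by_cases h : f = 1
  · rw [if_pos h]
    subst h
    rw [roots_one, Finset.sum_singleton, one_mul]
    have := rt_pow one_pos y
    rw [pow_one] at this
    rw [this]
  · rw [if_neg h, sum_roots (by omega), zero_mul]

theorem blk_pow_sum {f e : ℕ} (hf : 0 < f) (y : ℂ) :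
    ((blk f y).map fun b => b ^ (f * e)).sum = f * y ^ e := by
  have h1 : ∀ b ∈ blk f y, b ^ (f * e) = y ^ e := by
    intro b hb
    rw [pow_mul, blk_pow hf hb]
  rw [List.map_congr_left h1, List.map_const', List.sum_replicate, nsmul_eq_mul, blk_len hf]

theorem norm_root {f : ℕ} (hf : 0 < f) {b y : ℂ} {R : ℝ} (hR : 0 ≤ R) (hb : b ^ f = y)
    (hy : ‖y‖ ≤ R ^ f) : ‖b‖ ≤ R := by
  rw [← hb, norm_pow] at hy
  exact (pow_le_pow_iff_left₀ (norm_nonneg b) hR hf.ne').1 hy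

section pad

theorem sum_pad {M : Type*} [AddCommMonoid M] {l : List ℂ} {n : ℕ} (h : l.length ≤ n) {F : ℂ → M}
    (hF : F 0 = 0) : ∑ i ∈ Finset.range n, F (l.getD i 0) = (l.map F).sum := by
  rw [← sum_getD l 0 F, ← Finset.sum_subset (Finset.range_mono h)]
  intro i _ hi
  rw [Finset.mem_range, not_lt] at hi
  rw [List.getD_eq_default _ _ hi, hF]

theorem prod_pad {M : Type*} [CommMonoid M] {l : List ℂ} {n : ℕ} (h : l.length ≤ n) {F : ℂ → M}
    (hF : F 0 = 1) : ∏ i ∈ Finset.range n, F (l.getD i 0) = (l.map F).prod := by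
  rw [← prod_getD l 0 F, ← Finset.prod_subset (Finset.range_mono h)]
  intro i _ hi
  rw [Finset.mem_range, not_lt] at hi
  rw [List.getD_eq_default _ _ hi, hF]

end pad

section lst

variable {ι : Type} {r : ℕ}

/-- all parameters above one prime -/
noncomputable def lst (P : Finset ι) (f : ι → ℕ) (x : ι → Fin r → ℂ) (l : List (Fin r → ℤ)) :
    List ℂ := P.toList.flatMap fun v => l.flatMap fun μ => blk (f v) (mono (x v) μ)

theorem mem_lst {P : Finset ι} {f : ι → ℕ} {x : ι → Fin r → ℂ} {l : List (Fin r → ℤ)} {b : ℂ} :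
    b ∈ lst P f x l ↔ ∃ v ∈ P, ∃ μ ∈ l, b ∈ blk (f v) (mono (x v) μ) := by
  unfold lst
  simp only [List.mem_flatMap, Finset.mem_toList]

theorem sum_flat {α β : Type*} (l : List α) (g : α → List β) (F : β → ℂ) :
    ((l.flatMap g).map F).sum = (l.map fun a => ((g a).map F).sum).sum := by
  induction l with
  | nil => simp
  | cons a l ih => simp [List.flatMap_cons, ih]

theorem prod_flat {α β : Type*} (l : List α) (g : α → List β) (F : β → ℂ) :
    ((l.flatMap g).map F).prod = (l.map fun a => ((g a).map F).prod).prod := by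
  induction l with
  | nil => simp
  | cons a l ih => simp [List.flatMap_cons, ih]

theorem lst_sum (P : Finset ι) (f : ι → ℕ) (x : ι → Fin r → ℂ) (l : List (Fin r → ℤ)) (F : ℂ → ℂ) :
    ((lst P f x l).map F).sum =
      ∑ v ∈ P, (l.map fun μ => ((blk (f v) (mono (x v) μ)).map F).sum).sum := by
  unfold lst
  rw [sum_flat, Finset.sum_map_toList]
  exact Finset.sum_congr rfl fun v _ => sum_flat _ _ _

theorem lst_prod (P : Finset ι) (f : ι → ℕ) (x : ι → Fin r → ℂ) (l : List (Fin r → ℤ)) (F : ℂ → ℂ) :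
    ((lst P f x l).map F).prod =
      ∏ v ∈ P, (l.map fun μ => ((blk (f v) (mono (x v) μ)).map F).prod).prod := by
  unfold lst
  rw [prod_flat, Finset.prod_map_toList]
  exact Finset.prod_congr rfl fun v _ => prod_flat _ _ _

theorem lst_len {P : Finset ι} {f : ι → ℕ} (hf : ∀ v ∈ P, 0 < f v) (x : ι → Fin r → ℂ)
    (l : List (Fin r → ℤ)) : (lst P f x l).length = (∑ v ∈ P, f v) * l.length := by
  unfold lst
  rw [List.length_flatMap, Finset.sum_map_toList, Finset.sum_mul]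
  refine Finset.sum_congr rfl fun v hv => ?_
  rw [List.length_flatMap]
  simp only [blk_len (hf v hv)]
  rw [List.map_const', List.sum_replicate, smul_eq_mul, mul_comm]

end lst

end Pool.Agent.U253.NFD
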