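import Pool.Agent.U253.NFD.Abs
import Pool.Agent.U253.NFD.Lst

/-!
# L-functions over number fields as Euler products over the rational primes
-/

set_option autoImplicit false

namespace Pool.Agent.U253.NFD

open Filter Topology Complex Pool.Agent.N210.FV Pool.Agent.N210.FW Pool.Agent.N845.SP
open Pool.Agent.U253.SPL Pool.Agent.U253.GAP
open Pool.Agent.U253.EEA (Half FEq mo_app)

/-- continuation -/
structure HK (S : Finset ℕ) (E : ℕ → ℂ → ℂ) (N D : ℂ → ℂ) : Prop where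
  diffN : Differentiable ℂ N
  diffD : Differentiable ℂ D
  order : ∃ C : ℝ, ∀ s, ‖N s‖ ≤ Real.exp (C * (1 + ‖s‖) ^ (3 / 2 : ℝ)) ∧
    ‖D s‖ ≤ Real.exp (C * (1 + ‖s‖) ^ (3 / 2 : ℝ))
  ne : ∀ s : ℂ, 1 < s.re → D s ≠ 0
  euler : ∀ s : ℂ, 1 < s.re → Tendsto (fun X : ℕ =>
    ∏ p ∈ (Finset.range X).filter (fun p => p.Prime ∧ p ∉ S), E p s) atTop (𝓝 (N s / D s))

variable {J ι : Type} [Fintype J] {r d : ℕ} {W : J → List (Fin r → ℤ)} {c : J → ℝ}
  {S : Finset ℕ} {V : ℕ → Finset ι} {f : ι → ℕ} {x : ι → Fin r → ℂ}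

/-- the Euler factor above `p` -/
noncomputable def EF (V : ℕ → Finset ι) (f : ι → ℕ) (x : ι → Fin r → ℂ) (l : List (Fin r → ℤ))
    (p : ℕ) (s : ℂ) : ℂ :=
  ∏ v ∈ V p, (l.map fun μ => (1 - mono (x v) μ * ((p : ℂ) ^ (-s)) ^ f v)⁻¹).prod

/-- the Euler factor of the dual above `p` -/
noncomputable def EF' (V : ℕ → Finset ι) (f : ι → ℕ) (x : ι → Fin r → ℂ) (l : List (Fin r → ℤ))
    (p : ℕ) (s : ℂ) : ℂ :=
  ∏ v ∈ V p, (l.map fun μ => (1 - (mono (x v) μ)⁻¹ * ((p : ℂ) ^ (-s)) ^ f v)⁻¹).prod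

theorem toHalf (hf : ∀ p : ℕ, p.Prime → p ∉ S → ∀ v ∈ V p, 0 < f v)
    (hd : ∀ p : ℕ, p.Prime → p ∉ S → ∑ v ∈ V p, f v ≤ d) {l : List (Fin r → ℤ)} {N D : ℂ → ℂ}
    (h : HK S (EF V f x l) N D) :
    Half S (d * l.length) (fun p i => (lst (V p) f x l).getD i 0) N D := by
  obtain ⟨h1, h2, h3, h4, h5⟩ := h
  refine ⟨h1, h2, h3, h4, fun s hs => ?_⟩
  refine (h5 s hs).congr fun X => Finset.prod_congr rfl fun p hp => ?_
  obtain ⟨hp1, hpS⟩ := (Finset.mem_filter.1 hp).2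
  have hlen : (lst (V p) f x l).length ≤ d * l.length := by
    rw [lst_len (hf p hp1 hpS)]
    exact Nat.mul_le_mul_right _ (hd p hp1 hpS)
  rw [prod_pad hlen (F := fun b => (1 - b * (p : ℂ) ^ (-s))⁻¹) (by simp), lst_prod]
  unfold EF
  refine Finset.prod_congr rfl fun v hv => ?_
  congr 1
  refine List.map_congr_left fun μ _ => ?_
  rw [blk_prod (hf p hp1 hpS v hv)]

theorem toHalf' (hf : ∀ p : ℕ, p.Prime → p ∉ S → ∀ v ∈ V p, 0 < f v)
    (hd : ∀ p : ℕ, p.Prime → p ∉ S → ∑ v ∈ V p, f v ≤ d) {l : List (Fin r → ℤ)} {N D : ℂ → ℂ}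
    (h : HK S (EF' V f x l) N D) :
    Half S (d * l.length) (fun p i => ((lst (V p) f x l).getD i 0)⁻¹) N D := by
  obtain ⟨h1, h2, h3, h4, h5⟩ := h
  refine ⟨h1, h2, h3, h4, fun s hs => ?_⟩
  refine (h5 s hs).congr fun X => Finset.prod_congr rfl fun p hp => ?_
  obtain ⟨hp1, hpS⟩ := (Finset.mem_filter.1 hp).2
  have hlen : (lst (V p) f x l).length ≤ d * l.length := by
    rw [lst_len (hf p hp1 hpS)]
    exact Nat.mul_le_mul_right _ (hd p hp1 hpS)
  rw [prod_pad hlen (F := fun b => (1 - b⁻¹ * (p : ℂ) ^ (-s))⁻¹) (by simp), lst_prod]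
  unfold EF'
  refine Finset.prod_congr rfl fun v hv => ?_
  congr 1
  refine List.map_congr_left fun μ _ => ?_
  rw [blk_prod_inv (hf p hp1 hpS v hv)]

/-- the relation between all power sums -/
theorem nf_gap {m m' : J → List ℂ} {N D N' D' : J → ℂ → ℂ} {g : ℕ → ℝ} {B : ℝ}
    (hf : ∀ p : ℕ, p.Prime → p ∉ S → ∀ v ∈ V p, 0 < f v)
    (hd : ∀ p : ℕ, p.Prime → p ∉ S → ∑ v ∈ V p, f v ≤ d)
    (hherm : ∀ p : ℕ, p.Prime → p ∉ S → ∀ v ∈ V p, ∀ j,
      ((W j).map fun μ => ((starRingEnd ℂ) (mono (x v) μ))⁻¹).Perm ((W j).map (mono (x v))))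
    (hL : ∀ j, HK S (EF V f x (W j)) (N j) (D j)) (hL' : ∀ j, HK S (EF' V f x (W j)) (N' j) (D' j))
    (hF : ∀ j, FEq S (m j) (m' j) (N j) (D j) (N' j) (D' j))
    (hg0 : ∀ p, 0 ≤ g p) (hlit : Lit S g)
    (hbd : ∀ p : ℕ, p.Prime → p ∉ S →
      ((∀ v ∈ V p, ∀ j, ∀ μ ∈ W j, ‖mono (x v) μ‖ ≤ B) ∧
        ‖∑ v ∈ (V p).filter (fun v => f v = 1), ∑ j, (c j : ℂ) * ((W j).map (mono (x v))).sum‖ ≤ g p) ∨
      ∀ v ∈ V p, ∀ j, ∀ μ ∈ W j, ‖mono (x v) μ‖ ≤ g p ^ f v) :
    (∀ p : ℕ, p.Prime → p ∉ S → ∀ k : ℕ,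
      ∑ j, (c j : ℂ) * ((lst (V p) f x (W j)).map fun b => b ^ (k + 1)).sum = 0) ∧
    ∀ z : ℂ, ∑ j, c j * (((mo (gi (m j)) (1 - z) : ℝ) + mo (gi (m' j)) (1 - z)) -
      (mo (gi (m j)) z + mo (gi (m' j)) z)) = 0 := by
  classical
  have hdual : ∀ p : ℕ, p.Prime → p ∉ S → ∀ v ∈ V p, ∀ j, ∀ μ ∈ W j, ∃ μ' ∈ W j,
      ‖(mono (x v) μ)⁻¹‖ = ‖mono (x v) μ'‖ := by
    intro p hp hpS v hv j μ hμ
    have h1 : ((starRingEnd ℂ) (mono (x v) μ))⁻¹ ∈ (W j).map (mono (x v)) :=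
      (hherm p hp hpS v hv j).mem_iff.1 (List.mem_map.2 ⟨μ, hμ, rfl⟩)
    obtain ⟨μ', hμ', h2⟩ := List.mem_map.1 h1
    refine ⟨μ', hμ', ?_⟩
    rw [h2, norm_inv, norm_inv, Complex.norm_conj]
  have hconj : ∀ p : ℕ, p.Prime → p ∉ S → ∀ v ∈ V p, ∀ j,
      ((W j).map fun μ => (mono (x v) μ)⁻¹).sum =
      (starRingEnd ℂ) ((W j).map (mono (x v))).sum := by
    intro p hp hpS v hv j
    have h1 := ((hherm p hp hpS v hv j).map fun y => y⁻¹).sum_eq
    rw [List.map_map, List.map_map] at h1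
    rw [map_list_sum, List.map_map]
    rw [show ((fun y : ℂ => y⁻¹) ∘ mono (x v)) = fun μ => (mono (x v) μ)⁻¹ from rfl] at h1
    rw [← h1]
    congr 1
    refine List.map_congr_left fun μ _ => ?_
    simp
  have hlen : ∀ p : ℕ, p.Prime → p ∉ S → ∀ j,
      (lst (V p) f x (W j)).length ≤ d * (W j).length := by
    intro p hp hpS j
    rw [lst_len (hf p hp hpS)]
    exact Nat.mul_le_mul_right _ (hd p hp hpS)
  -- the bounds
  have hbnd : ∀ p : ℕ, p.Prime → p ∉ S → ∀ R : ℝ, 0 ≤ R →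
      (∀ v ∈ V p, ∀ j, ∀ μ ∈ W j, ‖mono (x v) μ‖ ≤ R ^ f v) → ∀ j i,
      ‖(lst (V p) f x (W j)).getD i 0‖ ≤ R ∧ ‖((lst (V p) f x (W j)).getD i 0)⁻¹‖ ≤ R := by
    intro p hp hpS R hR h1 j i
    by_cases hi : i < (lst (V p) f x (W j)).length
    · have hb : (lst (V p) f x (W j)).getD i 0 ∈ lst (V p) f x (W j) := by
        rw [List.getD_eq_getElem _ _ hi]
        exact List.getElem_mem hi
      obtain ⟨v, hv, μ, hμ, hb⟩ := mem_lst.1 hb
      have hfv := hf p hp hpS v hv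
      refine ⟨norm_root hfv hR (blk_pow hfv hb) (h1 v hv j μ hμ), ?_⟩
      obtain ⟨μ', hμ', h3⟩ := hdual p hp hpS v hv j μ hμ
      refine norm_root (y := (mono (x v) μ)⁻¹) hfv hR ?_ ?_
      · rw [inv_pow, blk_pow hfv hb]
      · rw [h3]
        exact h1 v hv j μ' hμ'
    · rw [not_lt] at hi
      rw [List.getD_eq_default _ _ hi, inv_zero, norm_zero]
      exact ⟨hR, hR⟩
  have hps : ∀ p : ℕ, p.Prime → p ∉ S → ∀ j (k : ℕ),
      ps (Finset.range (d * (W j).length)) (fun p i => (lst (V p) f x (W j)).getD i 0) p (k + 1) =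
      ((lst (V p) f x (W j)).map fun b => b ^ (k + 1)).sum := by
    intro p hp hpS j k
    exact sum_pad (hlen p hp hpS j) (F := fun b => b ^ (k + 1)) (by simp)
  have hps' : ∀ p : ℕ, p.Prime → p ∉ S → ∀ j,
      ps (Finset.range (d * (W j).length)) (fun p i => ((lst (V p) f x (W j)).getD i 0)⁻¹) p 1 =
      ((lst (V p) f x (W j)).map fun b => b⁻¹).sum := by
    intro p hp hpS j
    have := sum_pad (hlen p hp hpS j) (F := fun b => (b⁻¹) ^ 1) (by simp)
    simp only [pow_one] at this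
    rw [← this]
    unfold ps
    simp only [pow_one]
  have hone : ∀ p : ℕ, p.Prime → p ∉ S → ∑ j, (c j : ℂ) * ((lst (V p) f x (W j)).map fun b => b).sum =
      ∑ v ∈ (V p).filter (fun v => f v = 1), ∑ j, (c j : ℂ) * ((W j).map (mono (x v))).sum := by
    intro p hp hpS
    rw [Finset.sum_filter, Finset.sum_congr rfl fun j _ => by
      rw [lst_sum, Finset.mul_sum], Finset.sum_comm]
    refine Finset.sum_congr rfl fun v hv => ?_
    have h1 : ∀ μ, ((blk (f v) (mono (x v) μ)).map fun b => b).sum =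
        if f v = 1 then mono (x v) μ else 0 := by
      intro μ
      rw [List.map_id']
      exact blk_sum (hf p hp hpS v hv) _
    simp only [h1]
    by_cases h2 : f v = 1
    · simp only [if_pos h2]
    · simp only [if_neg h2, List.map_const', List.sum_replicate, smul_zero, mul_zero,
        Finset.sum_const_zero]
  have hone' : ∀ p : ℕ, p.Prime → p ∉ S →
      ∑ j, (c j : ℂ) * ((lst (V p) f x (W j)).map fun b => b⁻¹).sum =
      (starRingEnd ℂ) (∑ v ∈ (V p).filter (fun v => f v = 1),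
        ∑ j, (c j : ℂ) * ((W j).map (mono (x v))).sum) := by
    intro p hp hpS
    rw [map_sum, Finset.sum_filter, Finset.sum_congr rfl fun j _ => by
      rw [lst_sum, Finset.mul_sum], Finset.sum_comm]
    refine Finset.sum_congr rfl fun v hv => ?_
    simp only [blk_sum_inv (hf p hp hpS v hv)]
    by_cases h2 : f v = 1
    · simp only [if_pos h2]
      rw [map_sum]
      refine Finset.sum_congr rfl fun j _ => ?_
      rw [map_mul, Complex.conj_ofReal, ← hconj p hp hpS v hv j]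
    · simp only [if_neg h2, List.map_const', List.sum_replicate, smul_zero, mul_zero,
        Finset.sum_const_zero]
  obtain ⟨h1, h2⟩ := gap_gen (n := fun j => d * (W j).length) (c := c) (g := g) (B := max B 1)
    (fun j => toHalf hf hd (hL j)) (fun j => toHalf' hf hd (hL' j)) hF
    (fun j p _ _ i _ => rfl) hg0 hlit (fun p hp hpS => by
      rcases hbd p hp hpS with ⟨a1, a2⟩ | a1
      · left
        refine ⟨fun j i _ => hbnd p hp hpS (max B 1) (zero_le_one.trans (le_max_right _ _))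
          (fun v hv j μ hμ => ?_) j i, ?_, ?_⟩
        · refine ((a1 v hv j μ hμ).trans (le_max_left B 1)).trans ?_
          exact le_self_pow₀ (le_max_right B 1) (hf p hp hpS v hv).ne'
        · have e : ∀ j, ps (Finset.range (d * (W j).length))
              (fun p i => (lst (V p) f x (W j)).getD i 0) p 1 =
              ((lst (V p) f x (W j)).map fun b => b).sum := by
            intro j
            have := hps p hp hpS j 0
            simpa only [zero_add, pow_one] using this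
          simp only [e]
          rw [hone p hp hpS]
          exact a2
        · simp only [hps' p hp hpS]
          rw [hone' p hp hpS, Complex.norm_conj]
          exact a2
      · right
        intro j i _
        exact hbnd p hp hpS (g p) (hg0 p) a1 j i)
  refine ⟨fun p hp hpS k => ?_, h2⟩
  have h3 := h1 p hp hpS k
  simp only [hps p hp hpS] at h3
  exact h3

theorem mono_pow (y : Fin r → ℂ) (e : ℕ) (μ : Fin r → ℤ) :
    mono (fun k => y k ^ e) μ = mono y μ ^ e := by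
  unfold mono
  rw [← Finset.prod_pow]
  refine Finset.prod_congr rfl fun k _ => ?_
  show (y k ^ e) ^ μ k = (y k ^ μ k) ^ e
  rw [← zpow_natCast, ← zpow_natCast, ← zpow_mul, ← zpow_mul, mul_comm]

/-- the multiplicities vanish -/
theorem nf_ct {P : Finset ι} {F : ℕ} (hF : 0 < F) (hf : ∀ v ∈ P, 0 < f v) (hdvd : ∀ v ∈ P, f v ∣ F)
    (h : ∀ k : ℕ, ∑ j, (c j : ℂ) * ((lst P f x (W j)).map fun b => b ^ (k + 1)).sum = 0)
    {z : ℂ} (hz : z ≠ 0) :
    ∑ v ∈ P, (f v : ℝ) * ∑ j, c j * ct (mono fun k => x v k ^ (F / f v)) (W j) z = 0 := by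
  classical
  set X : ι → Fin r → ℂ := fun v k => x v k ^ (F / f v) with hX
  have h1 : ∀ k : ℕ, ∑ q : J × {v // v ∈ P}, (((f q.2 : ℝ) * c q.1 : ℝ) : ℂ) *
      ps (Finset.range (W q.1).length) (fun (_ : ℕ) i => mono (X q.2) ((W q.1).getD i 0)) 0 (k + 1) = 0 := by
    intro k
    have h2 := h (F * (k + 1) - 1)
    rw [Nat.sub_add_cancel (Nat.mul_pos hF k.succ_pos)] at h2
    rw [Fintype.sum_prod_type, ← h2]
    refine Finset.sum_congr rfl fun j _ => ?_
    rw [lst_sum, Finset.mul_sum, ← Finset.sum_coe_sort P]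
    refine Finset.sum_congr rfl fun v _ => ?_
    have e1 : ps (Finset.range (W j).length) (fun (_ : ℕ) i => mono (X v) ((W j).getD i 0)) 0 (k + 1) =
        ((W j).map fun μ => mono (X v) μ ^ (k + 1)).sum :=
      sum_getD (W j) 0 fun μ => mono (X v) μ ^ (k + 1)
    have e2 : ∀ μ, ((blk (f v) (mono (x v) μ)).map fun b => b ^ (F * (k + 1))).sum =
        (f v : ℂ) * mono (X v) μ ^ (k + 1) := by
      intro μ
      have hFf : F = f v * (F / f v) := (Nat.mul_div_cancel' (hdvd v v.2)).symm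
      have e3 : (fun b : ℂ => b ^ (F * (k + 1))) = fun b : ℂ => b ^ (f v * ((F / f v) * (k + 1))) := by
        funext b
        rw [← mul_assoc, ← hFf]
      rw [e3, blk_pow_sum (hf v v.2), hX, mono_pow, ← pow_mul]
    simp only [e2]
    rw [e1, List.sum_map_mul_left]
    push_cast
    ring
  have h2 := Bm_vanish (β := fun (q : J × {v // v ∈ P}) (_ : ℕ) i => mono (X q.2) ((W q.1).getD i 0))
    (Ix := fun q => Finset.range (W q.1).length) (c := fun q => (f q.2 : ℝ) * c q.1) (p := 0) h1 hz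
  unfold Bm at h2
  rw [Fintype.sum_prod_type, Finset.sum_comm] at h2
  rw [← h2, ← Finset.sum_coe_sort P]
  refine Finset.sum_congr rfl fun v _ => ?_
  rw [Finset.mul_sum]
  refine Finset.sum_congr rfl fun j _ => ?_
  rw [← mul_assoc]
  congr 1
  unfold ct
  rw [← sum_getD (W j) 0 fun μ => if mono (X v) μ = z then (1 : ℝ) else 0]

end Pool.Agent.U253.NFD
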