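import Pool.Agent.U253.NFD.Face

/-!
# Multiplicative dependence with uniform exponents
-/

set_option autoImplicit false

namespace Pool.Agent.U253.NFD

open Filter Topology Complex Pool.Agent.U253.SPL

section gen

theorem gen_fun {X A : Type} [Fintype X] {L : X → List A} {c : X → ℝ}
    (h : ∀ z : A, ∑ x, c x * ((L x).map fun b => (open Classical in if b = z then (1 : ℝ) else 0)).sum = 0)
    (G : A → ℝ) : ∑ x, c x * ((L x).map G).sum = 0 := by
  classical
  set T : Finset A := Finset.univ.biUnion fun q => (L q).toFinset with hT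
  have hmem : ∀ q, ∀ b ∈ L q, b ∈ T := fun q b hb =>
    Finset.mem_biUnion.2 ⟨q, Finset.mem_univ _, List.mem_toFinset.2 hb⟩
  have key : ∀ l : List A, (∀ b ∈ l, b ∈ T) → (l.map G).sum =
      ∑ z ∈ T, G z * (l.map fun b => if b = z then (1 : ℝ) else 0).sum := by
    intro l
    induction l with
    | nil => simp
    | cons b l ih =>
      intro hl
      rw [List.map_cons, List.sum_cons, ih fun b' hb' => hl b' (List.mem_cons_of_mem _ hb')]
      simp only [List.map_cons, List.sum_cons, mul_add, Finset.sum_add_distrib]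
      congr 1
      rw [Finset.sum_eq_single b]
      · simp
      · intro z _ hz
        rw [if_neg (Ne.symm hz), mul_zero]
      · intro h0
        exact absurd (hl b List.mem_cons_self) h0
  have h1 : ∀ q, c q * ((L q).map G).sum =
      ∑ z ∈ T, G z * (c q * ((L q).map fun b => if b = z then (1 : ℝ) else 0).sum) := by
    intro q
    rw [key (L q) (hmem q), Finset.mul_sum]
    exact Finset.sum_congr rfl fun z _ => by ring
  rw [Finset.sum_congr rfl fun q _ => h1 q, Finset.sum_comm]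
  refine Finset.sum_eq_zero fun z _ => ?_
  rw [← Finset.mul_sum]
  have := h z
  rw [this, mul_zero]

end gen

section abs

variable {Q V : Type} [Fintype Q] [Fintype V] {r : ℕ} {W : Q → List (Fin r → ℤ)} {c : Q → ℝ}
  {w : V → ℝ}

/-- **uniform dependence** -/
theorem abs_dep {Lf Gd : Q → Prop}
    (H : ∀ a : V → Fin r → ℤ, (∀ t : ℤ, ∑ u, w u * ∑ q, c q * ct (dt (a u)) (W q) t = 0) →
      (∀ u q, Gd q → ∀ ν ∈ W q, dt (a u) ν = 0) → ∀ u q, Lf q → ∀ μ ∈ W q, dt (a u) μ = 0) :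
    ∃ m : ℕ, 0 < m ∧ ∀ (A : Type) [AddCommGroup A] (φ : V → (Fin r → ℤ) →+ A),
      (∀ z : A, ∑ u, w u * ∑ q, c q * ct (φ u) (W q) z = 0) →
      ∀ u q, Lf q → ∀ μ ∈ W q,
        m • φ u μ ∈ AddSubgroup.closure {y | ∃ u' q', Gd q' ∧ ∃ ν ∈ W q', y = φ u' ν} := by
  classical
  set U : Finset (Fin r → ℤ) := Finset.univ.biUnion fun j => (W j).toFinset with hU
  have hUm : ∀ μ, μ ∈ U ↔ ∃ j, μ ∈ W j := by
    intro μ
    rw [hU, Finset.mem_biUnion]
    constructor
    · rintro ⟨j, -, hj⟩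
      exact ⟨j, List.mem_toFinset.1 hj⟩
    · rintro ⟨j, hj⟩
      exact ⟨j, Finset.mem_univ _, List.mem_toFinset.2 hj⟩
  set T : Finset (V × (Fin r → ℤ)) := Finset.univ ×ˢ U with hT
  set G : Finset ((V × (Fin r → ℤ)) × (V × (Fin r → ℤ))) →
      AddSubgroup (Fin (Fintype.card (V × Fin r)) → ℤ) := fun F =>
    AddSubgroup.closure ({d | ∃ q ∈ F, d = inc q.1.1 q.1.2 - inc q.2.1 q.2.2} ∪
      {d | ∃ u q, Gd q ∧ ∃ ν ∈ W q, d = inc u ν}) with hG
  have key : ∀ (F : Finset ((V × (Fin r → ℤ)) × (V × (Fin r → ℤ)))) (v : V) (μ : Fin r → ℤ),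
      ∃ n : ℕ, 0 < n ∧ ((∃ (A : Type) (_ : AddCommGroup A) (φ : V → (Fin r → ℤ) →+ A),
        (∀ z : A, ∑ u, w u * ∑ j, c j * ct (φ u) (W j) z = 0) ∧
        (T ×ˢ T).filter (fun q => φ q.1.1 q.1.2 = φ q.2.1 q.2.2) = F) → (∃ q, Lf q ∧ μ ∈ W q) →
        n • (inc v μ) ∈ G F) := by
    intro F v μ
    by_cases hF : (∃ (A : Type) (_ : AddCommGroup A) (φ : V → (Fin r → ℤ) →+ A),
        (∀ z : A, ∑ u, w u * ∑ j, c j * ct (φ u) (W j) z = 0) ∧
        (T ×ˢ T).filter (fun q => φ q.1.1 q.1.2 = φ q.2.1 q.2.2) = F) ∧ (∃ q, Lf q ∧ μ ∈ W q)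
    · obtain ⟨⟨A, hA, φ, hz, hφF⟩, q₀, hq₀, hμ⟩ := hF
      by_contra hcon
      push Not at hcon
      have hd : ∀ n : ℕ, 0 < n → QuotientAddGroup.mk' (G F) (n • (inc v μ)) ≠ 0 := by
        intro n hn h0
        exact (hcon n hn).2.2 ((QuotientAddGroup.eq_zero_iff _).1 h0)
      obtain ⟨a, ha, had⟩ := fun_sep (QuotientAddGroup.mk' (G F)) hd
      have ha' : ∀ m ∈ G F, dt a m = 0 := fun m hm => ha m ((QuotientAddGroup.eq_zero_iff _).2 hm)
      refine had ?_
      rw [dt_inc]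
      refine H (fun u k => a (enu V r (u, k))) (fun t => ?_) (fun u q hq ν hν => ?_) v q₀ hq₀ μ hμ
      · refine push (val := fun u μ => φ u μ) (fun u u' i₁ i₂ μ₁ h₁ μ₂ h₂ h3 => ?_) hz t
        have h4 : inc u μ₁ - inc u' μ₂ ∈ G F := by
          refine AddSubgroup.subset_closure (Or.inl ⟨((u, μ₁), (u', μ₂)), ?_, rfl⟩)
          rw [← hφF, Finset.mem_filter, Finset.mem_product]
          exact ⟨⟨Finset.mem_product.2 ⟨Finset.mem_univ _, (hUm _).2 ⟨i₁, h₁⟩⟩,
            Finset.mem_product.2 ⟨Finset.mem_univ _, (hUm _).2 ⟨i₂, h₂⟩⟩⟩, h3⟩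
        have h5 := ha' _ h4
        rw [dt_sub, dt_inc, dt_inc] at h5
        exact sub_eq_zero.1 h5
      · have h4 : inc u ν ∈ G F := AddSubgroup.subset_closure (Or.inr ⟨u, q, hq, ν, hν, rfl⟩)
        have h5 := ha' _ h4
        rw [dt_inc] at h5
        exact h5
    · exact ⟨1, one_pos, fun h1 h2 => absurd ⟨h1, h2⟩ hF⟩
  choose n hn hnG using key
  refine ⟨∏ F ∈ (T ×ˢ T).powerset, ∏ v : V, ∏ μ ∈ U, n F v μ,
    Finset.prod_pos fun F _ => Finset.prod_pos fun v _ => Finset.prod_pos fun q _ => hn F v q, ?_⟩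
  intro A hA φ hz u q hq μ hμ
  have hμU : μ ∈ U := (hUm _).2 ⟨q, hμ⟩
  set F := (T ×ˢ T).filter (fun q => φ q.1.1 q.1.2 = φ q.2.1 q.2.2) with hFdef
  have hF : F ∈ (T ×ˢ T).powerset := Finset.mem_powerset.2 (Finset.filter_subset _ _)
  have h1 := hnG F u μ ⟨A, hA, φ, hz, hFdef.symm⟩ ⟨q, hq, hμ⟩
  set K := AddSubgroup.closure {y | ∃ u' q', Gd q' ∧ ∃ ν ∈ W q', y = φ u' ν} with hK
  have h2 : G F ≤ K.comap (tot φ) := by
    rw [hG]
    refine (AddSubgroup.closure_le _).2 ?_
    rintro d (⟨q, hq, rfl⟩ | ⟨u', q', hq', ν, hν, rfl⟩)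
    · have h3 := (Finset.mem_filter.1 hq).2
      show tot φ (inc q.1.1 q.1.2 - inc q.2.1 q.2.2) ∈ K
      rw [map_sub, tot_inc, tot_inc, h3, sub_self]
      exact K.zero_mem
    · show tot φ (inc u' ν) ∈ K
      rw [tot_inc]
      exact AddSubgroup.subset_closure ⟨u', q', hq', ν, hν, rfl⟩
  have h3 : tot φ (n F u μ • inc u μ) ∈ K := h2 h1
  rw [map_nsmul, tot_inc] at h3
  obtain ⟨e, he⟩ : n F u μ ∣ ∏ F ∈ (T ×ˢ T).powerset, ∏ v : V, ∏ μ ∈ U, n F v μ :=
    ((Finset.dvd_prod_of_mem (fun μ => n F u μ) hμU).trans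
      (Finset.dvd_prod_of_mem (fun v => ∏ μ ∈ U, n F v μ) (Finset.mem_univ u))).trans
      (Finset.dvd_prod_of_mem (fun F => ∏ v : V, ∏ μ ∈ U, n F v μ) hF)
  rw [he, mul_nsmul]
  exact K.nsmul_mem h3 e

end abs

section both

variable {J I V : Type} [Fintype J] [Fintype I] [Fintype V] {r r' : ℕ}
  {W : J → Multiset (Fin r → ℤ)} {U : I → Multiset (Fin r' → ℤ)} {c : J → ℝ} {d : I → ℝ} {w : V → ℝ}

/-- the weights of the product of the two tori -/
noncomputable def WW (W : J → Multiset (Fin r → ℤ)) (U : I → Multiset (Fin r' → ℤ)) :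
    J ⊕ I → List (Fin (r + r') → ℤ) :=
  Sum.elim (fun j => (W j).toList.map fun μ => Fin.append μ 0)
    fun i => (U i).toList.map fun ν => Fin.append 0 ν

/-- the coefficients -/
def CC (c : J → ℝ) (d : I → ℝ) : J ⊕ I → ℝ := Sum.elim c fun i => -d i

/-- left -/
def LL : J ⊕ I → Prop := Sum.elim (fun _ => True) fun _ => False

/-- right with positive coefficient -/
def GG (d : I → ℝ) : J ⊕ I → Prop := Sum.elim (fun _ => False) fun i => 0 < d i

theorem dt_left (a : Fin (r + r') → ℤ) (μ : Fin r → ℤ) :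
    dt a (Fin.append μ (0 : Fin r' → ℤ)) = ∑ k, a (Fin.castAdd r' k) * μ k := by
  unfold dt
  rw [Fin.sum_univ_add]
  simp [Fin.append_left, Fin.append_right]

theorem dt_right (a : Fin (r + r') → ℤ) (ν : Fin r' → ℤ) :
    dt a (Fin.append (0 : Fin r → ℤ) ν) = ∑ k, a (Fin.natAdd r k) * ν k := by
  unfold dt
  rw [Fin.sum_univ_add]
  simp [Fin.append_left, Fin.append_right]

theorem msum_list {α M : Type*} [AddCommMonoid M] (A : Multiset α) (F : α → M) :
    (A.toList.map F).sum = (A.map F).sum := by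
  conv_rhs => rw [← Multiset.coe_toList A, Multiset.map_coe, Multiset.sum_coe]

theorem face_H (hc : Pf W c) (hw : ∀ u, 0 < w u) (a : V → Fin (r + r') → ℤ)
    (hS : ∀ t : ℤ, ∑ u, w u * ∑ q, CC c d q * ct (dt (a u)) (WW W U q) t = 0)
    (h0 : ∀ u q, GG (J := J) d q → ∀ ν ∈ WW W U q, dt (a u) ν = 0) :
    ∀ u q, LL (J := J) (I := I) q → ∀ μ ∈ WW W U q, dt (a u) μ = 0 := by
  classical
  have hfun : ∀ G : ℤ → ℝ, ∑ u, w u * ∑ q, CC c d q * ((WW W U q).map fun μ => G (dt (a u) μ)).sum = 0 := by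
    intro G
    have h1 := gen_fun (X := V × (J ⊕ I)) (L := fun x => (WW W U x.2).map (dt (a x.1)))
      (c := fun x => w x.1 * CC c d x.2) (fun z => by
        refine Eq.trans ?_ (hS z)
        rw [Fintype.sum_prod_type]
        refine Finset.sum_congr rfl fun u _ => ?_
        rw [Finset.mul_sum]
        refine Finset.sum_congr rfl fun q _ => ?_
        rw [mul_assoc, List.map_map]
        rfl) G
    refine Eq.trans ?_ h1
    rw [Fintype.sum_prod_type]
    refine Finset.sum_congr rfl fun u _ => ?_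
    rw [Finset.mul_sum]
    refine Finset.sum_congr rfl fun q _ => ?_
    rw [mul_assoc, List.map_map]
    rfl
  have h1 := faces_le hc (P := (Finset.univ : Finset V)) (w := w) (fun u _ => hw u)
    (a := fun u k => ((a u (Fin.castAdd r' k) : ℤ) : ℝ)) (T := 0) le_rfl fun t ht => by
      have h2 := hfun fun s => if |(s : ℝ)| = t then (1 : ℝ) else 0
      have h3 : ∀ u, ∑ q, CC c d q * ((WW W U q).map fun μ => if |((dt (a u) μ : ℤ) : ℝ)| = t
          then (1 : ℝ) else 0).sum =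
          ∑ j, c j * (((W j).map fun μ => |∑ k, ((a u (Fin.castAdd r' k) : ℤ) : ℝ) * (μ k : ℝ)|).count t : ℝ) -
          ∑ i, d i * (((U i).map fun ν => |∑ k, ((a u (Fin.natAdd r k) : ℤ) : ℝ) * (ν k : ℝ)|).count t : ℝ) := by
        intro u
        rw [Fintype.sum_sum_type, sub_eq_add_neg, ← Finset.sum_neg_distrib]
        congr 1
        · refine Finset.sum_congr rfl fun j _ => ?_
          show c j * _ = _
          congr 1
          show (((W j).toList.map fun μ => Fin.append μ (0 : Fin r' → ℤ)).map _).sum = _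
          rw [List.map_map, msum_list, count_sum]
          congr 1
          refine Multiset.map_congr rfl fun μ _ => ?_
          rw [Function.comp_apply, dt_left]
          push_cast
          rfl
        · refine Finset.sum_congr rfl fun i _ => ?_
          show -d i * _ = _
          rw [neg_mul]
          congr 2
          show (((U i).toList.map fun ν => Fin.append (0 : Fin r → ℤ) ν).map _).sum = _
          rw [List.map_map, msum_list, count_sum]
          congr 1
          refine Multiset.map_congr rfl fun ν _ => ?_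
          rw [Function.comp_apply, dt_right]
          push_cast
          rfl
      rw [Finset.sum_congr rfl fun u _ => by rw [h3 u, mul_sub], Finset.sum_sub_distrib] at h2
      have h4 := right_le (d := d) (P := (Finset.univ : Finset V)) (w := w) (fun u _ => (hw u).le)
        (L := fun i u => (U i).map fun ν => |∑ k, ((a u (Fin.natAdd r k) : ℤ) : ℝ) * (ν k : ℝ)|) ht
        (fun i hi u _ s hs => by
          obtain ⟨ν, hν, rfl⟩ := Multiset.mem_map.1 hs
          have h5 := h0 u (Sum.inr i) hi (Fin.append (0 : Fin r → ℤ) ν)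
            (List.mem_map.2 ⟨ν, Multiset.mem_toList.2 hν, rfl⟩)
          rw [dt_right] at h5
          have h6 : ∑ k, ((a u (Fin.natAdd r k) : ℤ) : ℝ) * (ν k : ℝ) = 0 := by exact_mod_cast h5
          rw [h6, abs_zero])
      linarith
  rintro u (j | i) hq μ hμ
  · obtain ⟨μ', hμ', rfl⟩ := List.mem_map.1 hμ
    have h2 := h1 u (Finset.mem_univ _) j μ' (Multiset.mem_toList.1 hμ')
    have h3 := abs_nonpos_iff.1 h2
    rw [dt_left]
    exact_mod_cast h3
  · exact absurd hq id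

/-- **uniform dependence for two tori** -/
theorem two_dep (hc : Pf W c) (hw : ∀ u, 0 < w u) : ∃ m : ℕ, 0 < m ∧
    ∀ (A : Type) [AddCommGroup A] (φ : V → (Fin (r + r') → ℤ) →+ A),
      (∀ z : A, ∑ u, w u * ∑ q, CC c d q * ct (φ u) (WW W U q) z = 0) →
      ∀ u j, ∀ μ ∈ W j, m • φ u (Fin.append μ 0) ∈
        AddSubgroup.closure {y | ∃ u' i, 0 < d i ∧ ∃ ν ∈ U i, y = φ u' (Fin.append 0 ν)} := by
  obtain ⟨m, hm, h⟩ := abs_dep (V := V) (W := WW W U) (c := CC c d) (w := w)
    (Lf := LL (J := J) (I := I)) (Gd := GG (J := J) d) (face_H hc hw)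
  refine ⟨m, hm, fun A _ φ hz u j μ hμ => ?_⟩
  have h1 := h A φ hz u (Sum.inl j) trivial (Fin.append μ 0)
    (List.mem_map.2 ⟨μ, Multiset.mem_toList.2 hμ, rfl⟩)
  refine AddSubgroup.closure_mono ?_ h1
  rintro y ⟨u', (j' | i), hq, ν', hν', rfl⟩
  · exact absurd hq id
  · obtain ⟨ν, hν, rfl⟩ := List.mem_map.1 hν'
    exact ⟨u', i, hq, ν, Multiset.mem_toList.1 hν, rfl⟩

end both

end Pool.Agent.U253.NFD
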