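import Pool.Agent.U253.NFD.Arch

/-!
# The finite places of a number field
-/

set_option autoImplicit false

namespace Pool.Agent.U253.NFD

open Filter Topology Complex Pool.Agent.N210.FV Pool.Agent.N210.FW Pool.Agent.N845.SP
open Pool.Agent.U253.SPL Pool.Agent.U253.GAP
open Pool.Agent.U253.EEA (Half FEq mo_app)

variable {J : Type} [Fintype J] {r : ℕ} {W : J → List (Fin r → ℤ)} {c : J → ℝ}

theorem ct_tor {x : Fin r → ℂ} (hx : ∀ k, x k ≠ 0) (l : List (Fin r → ℤ)) (z : Additive ℂˣ) :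
    ct (torHom x hx) l z = ct (mono x) l ((Additive.toMul z : ℂˣ) : ℂ) := by
  classical
  induction l with
  | nil => simp [ct]
  | cons μ l ih =>
    rw [ct_cons, ct_cons, ih]
    congr 1
    have h1 : (torHom x hx μ = z) = (mono x μ = ((Additive.toMul z : ℂˣ) : ℂ)) := by
      rw [← torHom_coe x hx μ, eq_iff_iff]
      constructor
      · intro h
        rw [h]
      · intro h
        exact Additive.toMul.injective (Units.ext h)
    simp only [h1]

/-- **uniform orders at the finite places** -/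
theorem fin_main (hdom : Dom W c) (d : ℕ) : ∃ m : ℕ, 0 < m ∧
    ∀ (ι : Type) (P : Finset ι) (f : ι → ℕ) (x : ι → Fin r → ℂ), (∀ v ∈ P, 0 < f v) →
      ∑ v ∈ P, f v ≤ d → (∀ v ∈ P, ∀ k, x v k ≠ 0) →
      (∀ k : ℕ, ∑ j, (c j : ℂ) * ((lst P f x (W j)).map fun b => b ^ (k + 1)).sum = 0) →
      ∀ v ∈ P, ∀ i j, ∀ μ ∈ W i, ∀ μ' ∈ W j, mono (x v) μ ^ m = mono (x v) μ' ^ m := by
  classical
  have key : ∀ (g : ℕ) (w : Fin g → Fin (d + 1)), ∃ m : ℕ, 0 < m ∧ ((∀ i, 0 < (w i : ℕ)) →
      ∀ (A : Type) [AddCommGroup A] (φ : Fin g → (Fin r → ℤ) →+ A),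
      (∀ z : A, ∑ u, ((w u : ℕ) : ℝ) * ∑ j, c j * ct (φ u) (W j) z = 0) →
      ∀ u i j, ∀ μ ∈ W i, ∀ μ' ∈ W j, m • φ u μ = m • φ u μ') := by
    intro g w
    by_cases h : ∀ i, 0 < (w i : ℕ)
    · obtain ⟨m, hm, h1⟩ := abs_uniform (V := Fin g) (w := fun u => ((w u : ℕ) : ℝ)) hdom
        (fun u => by exact_mod_cast h u)
      exact ⟨m, hm, fun _ => h1⟩
    · exact ⟨1, one_pos, fun h' => absurd h' h⟩
  choose M hM hMu using key
  refine ⟨d.factorial * ∏ g ∈ Finset.range (d + 1), ∏ w : Fin g → Fin (d + 1), M g w,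
    Nat.mul_pos d.factorial_pos (Finset.prod_pos fun g _ => Finset.prod_pos fun w _ => hM g w), ?_⟩
  intro ι P f x hf hd hx h v hv i j μ hμ μ' hμ'
  have hle : ∀ v ∈ P, f v ≤ d := fun v hv => (Finset.single_le_sum (f := f)
    (fun v _ => Nat.zero_le _) hv).trans hd
  have hcard : P.card ≤ d := by
    refine le_trans ?_ hd
    rw [Finset.card_eq_sum_ones]
    exact Finset.sum_le_sum fun v hv => hf v hv
  set g := P.card with hg
  set e : P ≃ Fin g := P.equivFin with he
  set w : Fin g → Fin (d + 1) := fun u => ⟨f (e.symm u), by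
    have := hle (e.symm u) (e.symm u).2
    omega⟩ with hw
  set X : ι → Fin r → ℂ := fun v k => x v k ^ (d.factorial / f v) with hX
  have hXne : ∀ v ∈ P, ∀ k, X v k ≠ 0 := fun v hv k => pow_ne_zero _ (hx v hv k)
  have h1 := hMu g w (fun u => hf (e.symm u) (e.symm u).2) (Additive ℂˣ)
    (fun u => torHom (X (e.symm u)) (hXne _ (e.symm u).2)) (fun z => by
      have h2 := nf_ct (x := x) (F := d.factorial) d.factorial_pos hf
        (fun v hv => Nat.dvd_factorial (hf v hv) (hle v hv)) h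
        (z := ((Additive.toMul z : ℂˣ) : ℂ)) (Units.ne_zero _)
      rw [← Finset.sum_coe_sort P] at h2
      rw [← h2, ← Equiv.sum_comp e]
      refine Finset.sum_congr rfl fun v _ => ?_
      have e0 : ((w (e v) : ℕ)) = f v := by
        show f (e.symm (e v)) = f v
        rw [Equiv.symm_apply_apply]
      simp only [ct_tor, Equiv.symm_apply_apply]
      rw [e0]) (e ⟨v, hv⟩) i j μ hμ μ' hμ'
  have h2 : mono (X v) μ ^ M g w = mono (X v) μ' ^ M g w := by
    have h3 := congrArg (fun y : Additive ℂˣ => ((Additive.toMul y : ℂˣ) : ℂ)) h1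
    simp only [toMul_nsmul, Units.val_pow_eq_pow_val, torHom_coe, Equiv.symm_apply_apply] at h3
    exact h3
  rw [hX, mono_pow, mono_pow, ← pow_mul, ← pow_mul] at h2
  obtain ⟨q, hq⟩ : M g w ∣ ∏ g ∈ Finset.range (d + 1), ∏ w : Fin g → Fin (d + 1), M g w :=
    (Finset.dvd_prod_of_mem (fun w => M g w) (Finset.mem_univ w)).trans
      (Finset.dvd_prod_of_mem (fun g => ∏ w : Fin g → Fin (d + 1), M g w)
        (Finset.mem_range.2 (by omega)))
  have e1 : d.factorial * ∏ g ∈ Finset.range (d + 1), ∏ w : Fin g → Fin (d + 1), M g w =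
      (d.factorial / f v * M g w) * (f v * q) := by
    rw [hq]
    have := Nat.div_mul_cancel (Nat.dvd_factorial (hf v hv) (hle v hv))
    calc d.factorial * (M g w * q) = (d.factorial / f v * f v) * (M g w * q) := by rw [this]
      _ = _ := by ring
  rw [e1, pow_mul, pow_mul (mono (x v) μ'), h2]

end Pool.Agent.U253.NFD
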