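import Pool.Agent.U253.NFD.Dep
import Pool.Agent.U253.NFD.Tor

/-!
# Dependence of the parameters at the finite and at the archimedean places
-/

set_option autoImplicit false

namespace Pool.Agent.U253.NFD

open Filter Topology Complex Pool.Agent.U253.SPL

section fin

variable {J I : Type} [Fintype J] [Fintype I] {r r' : ℕ}
  {W : J → Multiset (Fin r → ℤ)} {U : I → Multiset (Fin r' → ℤ)} {c : J → ℝ} {d : I → ℝ}

theorem mono_left (x : Fin r → ℂ) (y : Fin r' → ℂ) (μ : Fin r → ℤ) :
    mono (Fin.append x y) (Fin.append μ (0 : Fin r' → ℤ)) = mono x μ := by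
  unfold mono
  rw [Fin.prod_univ_add]
  simp [Fin.append_left, Fin.append_right]

theorem mono_right (x : Fin r → ℂ) (y : Fin r' → ℂ) (ν : Fin r' → ℤ) :
    mono (Fin.append x y) (Fin.append (0 : Fin r → ℤ) ν) = mono y ν := by
  unfold mono
  rw [Fin.prod_univ_add]
  simp [Fin.append_left, Fin.append_right]

theorem dc_left (x : Fin r → ℂ) (y : Fin r' → ℂ) (μ : Fin r → ℤ) :
    dc (Fin.append x y) (Fin.append μ (0 : Fin r' → ℤ)) = dc x μ := by
  unfold dc
  rw [Fin.sum_univ_add]
  simp [Fin.append_left, Fin.append_right]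

theorem dc_right (x : Fin r → ℂ) (y : Fin r' → ℂ) (ν : Fin r' → ℤ) :
    dc (Fin.append x y) (Fin.append (0 : Fin r → ℤ) ν) = dc y ν := by
  unfold dc
  rw [Fin.sum_univ_add]
  simp [Fin.append_left, Fin.append_right]

theorem append_ne {x : Fin r → ℂ} {y : Fin r' → ℂ} (hx : ∀ k, x k ≠ 0) (hy : ∀ k, y k ≠ 0)
    (k : Fin (r + r')) : Fin.append x y k ≠ 0 := by
  refine Fin.addCases (fun i => ?_) (fun i => ?_) k
  · rw [Fin.append_left]
    exact hx i
  · rw [Fin.append_right]
    exact hy i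

/-- the group generated by the parameters of the right side with positive coefficients -/
def gp {ι : Type} (d : I → ℝ) (P : Finset ι) (β : I → ι → Multiset ℂ) : Subgroup ℂˣ :=
  Subgroup.closure {y | ∃ i, 0 < d i ∧ ∃ w ∈ P, (y : ℂ) ∈ β i w}

/-- one pattern of degrees -/
theorem fin_rel {ι : Type} {P : Finset ι} {f : ι → ℕ} {h N : ℕ} (hf : ∀ v ∈ P, 0 < f v)
    (hN : ∀ v ∈ P, f v ∣ N) {α : J → ι → Multiset ℂ} {β : I → ι → Multiset ℂ}
    {x : ι → Fin r → ℂ} {y : ι → Fin r' → ℂ}
    (hα : ∀ v ∈ P, ∀ j, (α j v).map (fun a => a ^ h) = (W j).map (mono (x v)))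
    (hβ : ∀ v ∈ P, ∀ i, (β i v).map (fun b => b ^ h) = (U i).map (mono (y v)))
    (hG : ∀ G : ℂ → ℝ, ∑ j, c j * ((lstE P f fun v => (α j v).toList).map G).sum =
      ∑ i, d i * ((lstE P f fun v => (β i v).toList).map G).sum) (z : ℂ) :
    ∑ v ∈ P, (f v : ℝ) * ∑ q, CC c d q *
      ct (mono fun k => Fin.append (x v) (y v) k ^ (N / f v)) (WW W U q) z = 0 := by
  classical
  set G : ℂ → ℝ := fun b => if b ^ (h * N) = z then (1 : ℝ) else 0 with hGdef
  have key : ∀ {X : Type} (Ax : X → ι → Multiset ℂ) (e : X → ℝ) (r₀ : ℕ) (Wx : X → Multiset (Fin r₀ → ℤ))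
      (t : ι → Fin r₀ → ℂ) [Fintype X],
      (∀ v ∈ P, ∀ q, (Ax q v).map (fun a => a ^ h) = (Wx q).map (mono (t v))) →
      ∑ q, e q * ((lstE P f fun v => (Ax q v).toList).map G).sum =
      ∑ v ∈ P, (f v : ℝ) * ∑ q, e q * ((Wx q).map fun μ =>
        if mono (t v) μ ^ (N / f v) = z then (1 : ℝ) else 0).sum := by
    intro X Ax e r₀ Wx t _ hAx
    have h2 : ∀ q, e q * ((lstE P f fun v => (Ax q v).toList).map G).sum =
        ∑ v ∈ P, (f v : ℝ) * (e q * ((Wx q).map fun μ =>
          if mono (t v) μ ^ (N / f v) = z then (1 : ℝ) else 0).sum) := by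
      intro q
      rw [lstE_sum, Finset.mul_sum]
      refine Finset.sum_congr rfl fun v hv => ?_
      have h3 : ∀ a : ℂ, ((blk (f v) a).map G).sum =
          (f v : ℝ) * if (a ^ h) ^ (N / f v) = z then (1 : ℝ) else 0 := by
        intro a
        have h4 : ∀ b ∈ blk (f v) a, G b = if (a ^ h) ^ (N / f v) = z then (1 : ℝ) else 0 := by
          intro b hb
          have h5 : b ^ (h * N) = (a ^ h) ^ (N / f v) := by
            have h6 := blk_pow (hf v hv) hb
            rw [← h6, ← pow_mul, ← pow_mul]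
            congr 1
            have := Nat.mul_div_cancel' (hN v hv)
            calc h * N = h * (f v * (N / f v)) := by rw [this]
              _ = _ := by ring
          simp only [hGdef, h5]
        rw [List.map_congr_left h4, List.map_const', List.sum_replicate, blk_len (hf v hv), nsmul_eq_mul]
      simp only [h3]
      rw [List.sum_map_mul_left, msum_list]
      have h7 : ((Ax q v).map fun a => if (a ^ h) ^ (N / f v) = z then (1 : ℝ) else 0) =
          (Wx q).map fun μ => if mono (t v) μ ^ (N / f v) = z then (1 : ℝ) else 0 := by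
        have h8 := congrArg (Multiset.map fun s : ℂ => if s ^ (N / f v) = z then (1 : ℝ) else 0)
          (hAx v hv q)
        rw [Multiset.map_map, Multiset.map_map] at h8
        exact h8
      rw [h7]
      ring
    rw [Finset.sum_congr rfl fun q _ => h2 q, Finset.sum_comm]
    exact Finset.sum_congr rfl fun v _ => (Finset.mul_sum _ _ _).symm
  have h1 := hG G
  rw [key α c r W x hα, key β d r' U y hβ, ← sub_eq_zero, ← Finset.sum_sub_distrib] at h1
  rw [← h1]
  refine Finset.sum_congr rfl fun v _ => ?_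
  rw [← mul_sub]
  congr 1
  rw [Fintype.sum_sum_type, sub_eq_add_neg, ← Finset.sum_neg_distrib]
  congr 1
  · refine Finset.sum_congr rfl fun j _ => ?_
    show c j * _ = _
    congr 1
    unfold ct
    show (((W j).toList.map fun μ => Fin.append μ (0 : Fin r' → ℤ)).map _).sum = _
    rw [List.map_map, msum_list]
    congr 1
    refine Multiset.map_congr rfl fun μ _ => ?_
    rw [Function.comp_apply, mono_pow, mono_left]
  · refine Finset.sum_congr rfl fun i _ => ?_
    show -d i * _ = _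
    rw [neg_mul]
    congr 2
    unfold ct
    show (((U i).toList.map fun ν => Fin.append (0 : Fin r → ℤ) ν).map _).sum = _
    rw [List.map_map, msum_list]
    congr 1
    refine Multiset.map_congr rfl fun ν _ => ?_
    rw [Function.comp_apply, mono_pow, mono_right]

/-- **uniform dependence of the parameters above one prime** -/
theorem fin_dep (hc : Pf W c) (U : I → Multiset (Fin r' → ℤ)) (d : I → ℝ) (D h : ℕ) (hh : 0 < h) :
    ∃ m : ℕ, 0 < m ∧
    ∀ (ι : Type) (P : Finset ι) (f : ι → ℕ) (α : J → ι → Multiset ℂ) (β : I → ι → Multiset ℂ),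
      (∀ v ∈ P, 0 < f v) → ∑ v ∈ P, f v ≤ D →
      (∀ v ∈ P, ∃ x : Fin r → ℂ, (∀ k, x k ≠ 0) ∧
        ∀ j, (α j v).map (fun a => a ^ h) = (W j).map (mono x)) →
      (∀ v ∈ P, ∃ y : Fin r' → ℂ, (∀ k, y k ≠ 0) ∧
        ∀ i, (β i v).map (fun b => b ^ h) = (U i).map (mono y)) →
      (∀ G : ℂ → ℝ, ∑ j, c j * ((lstE P f fun v => (α j v).toList).map G).sum =
        ∑ i, d i * ((lstE P f fun v => (β i v).toList).map G).sum) →
      ∀ v ∈ P, ∀ j, ∀ a ∈ α j v, ∃ s ∈ gp d P β, (s : ℂ) = a ^ m := by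
  classical
  have key : ∀ (g : ℕ) (w : Fin g → Fin (D + 1)), ∃ m : ℕ, 0 < m ∧ ((∀ i, 0 < (w i : ℕ)) →
      ∀ (A : Type) [AddCommGroup A] (φ : Fin g → (Fin (r + r') → ℤ) →+ A),
      (∀ z : A, ∑ u, ((w u : ℕ) : ℝ) * ∑ q, CC c d q * ct (φ u) (WW W U q) z = 0) →
      ∀ u j, ∀ μ ∈ W j, m • φ u (Fin.append μ 0) ∈
        AddSubgroup.closure {y | ∃ u' i, 0 < d i ∧ ∃ ν ∈ U i, y = φ u' (Fin.append 0 ν)}) := by
    intro g w
    by_cases h : ∀ i, 0 < (w i : ℕ)
    · obtain ⟨m, hm, h1⟩ := two_dep (V := Fin g) (w := fun u => ((w u : ℕ) : ℝ)) (U := U) (d := d) hc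
        (fun u => by exact_mod_cast h u)
      exact ⟨m, hm, fun _ => h1⟩
    · exact ⟨1, one_pos, fun h' => absurd h' h⟩
  choose M hM hMu using key
  refine ⟨h * D.factorial * ∏ g ∈ Finset.range (D + 1), ∏ w : Fin g → Fin (D + 1), M g w,
    Nat.mul_pos (Nat.mul_pos hh D.factorial_pos)
      (Finset.prod_pos fun g _ => Finset.prod_pos fun w _ => hM g w), ?_⟩
  intro ι P f α β hf hd hsat hsat' hG v hv j a ha
  choose! x hx hxW using hsat
  choose! y hy hyW using hsat'
  have hle : ∀ v ∈ P, f v ≤ D := fun v hv => (Finset.single_le_sum (f := f)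
    (fun v _ => Nat.zero_le _) hv).trans hd
  have hcard : P.card ≤ D := by
    refine le_trans ?_ hd
    rw [Finset.card_eq_sum_ones]
    exact Finset.sum_le_sum fun v hv => hf v hv
  have hdvd : ∀ v ∈ P, f v ∣ D.factorial := fun v hv => Nat.dvd_factorial (hf v hv) (hle v hv)
  set g := P.card with hg
  set e : P ≃ Fin g := P.equivFin with he
  set w : Fin g → Fin (D + 1) := fun u => ⟨f (e.symm u), by
    have := hle (e.symm u) (e.symm u).2
    omega⟩ with hw
  set X : ι → Fin (r + r') → ℂ := fun v k => Fin.append (x v) (y v) k ^ (D.factorial / f v) with hX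
  have hXne : ∀ v ∈ P, ∀ k, X v k ≠ 0 := fun v hv k => pow_ne_zero _ (append_ne (hx v hv) (hy v hv) k)
  obtain ⟨μ, hμ, hμa⟩ : ∃ μ ∈ W j, mono (x v) μ = a ^ h := by
    have h1 : a ^ h ∈ (W j).map (mono (x v)) := by
      rw [← hxW v hv j]
      exact Multiset.mem_map_of_mem _ ha
    exact Multiset.mem_map.1 h1
  have h1 := hMu g w (fun u => hf (e.symm u) (e.symm u).2) (Additive ℂˣ)
    (fun u => torHom (X (e.symm u)) (hXne _ (e.symm u).2)) (fun z => by
      have h2 := fin_rel (x := x) (y := y) hf hdvd hxW hyW hG ((Additive.toMul z : ℂˣ) : ℂ)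
      rw [← Finset.sum_coe_sort P] at h2
      rw [← h2, ← Equiv.sum_comp e]
      refine Finset.sum_congr rfl fun v _ => ?_
      have e0 : ((w (e v) : ℕ)) = f v := by
        show f (e.symm (e v)) = f v
        rw [Equiv.symm_apply_apply]
      simp only [ct_tor, Equiv.symm_apply_apply]
      rw [e0]) (e ⟨v, hv⟩) j μ hμ
  simp only [Equiv.symm_apply_apply] at h1
  set H : Subgroup ℂˣ := gp d P β with hHdef
  have h2 : AddSubgroup.closure {s | ∃ u' i, 0 < d i ∧ ∃ ν ∈ U i,
      s = torHom (X (e.symm u')) (hXne _ (e.symm u').2) (Fin.append (0 : Fin r → ℤ) ν)} ≤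
      Subgroup.toAddSubgroup H := by
    refine (AddSubgroup.closure_le _).2 ?_
    rintro s ⟨u', i, hi, ν, hν, rfl⟩
    set u : P := e.symm u' with hu
    have h3 : mono (y u) ν ∈ (β i u).map fun b => b ^ h := by
      rw [hyW u u.2 i]
      exact Multiset.mem_map_of_mem _ hν
    obtain ⟨b, hb, hbν⟩ := Multiset.mem_map.1 h3
    have hb0 : b ≠ 0 := by
      intro h0
      rw [h0, zero_pow hh.ne'] at hbν
      exact mono_ne (hy u u.2) ν hbν.symm
    show Additive.toMul (torHom (X u) (hXne _ u.2) (Fin.append (0 : Fin r → ℤ) ν)) ∈ H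
    have h4 : Additive.toMul (torHom (X u) (hXne _ u.2) (Fin.append (0 : Fin r → ℤ) ν)) =
        (Units.mk0 b hb0) ^ (h * (D.factorial / f u)) := by
      refine Units.ext ?_
      rw [torHom_coe, Units.val_pow_eq_pow_val, Units.val_mk0, hX, mono_pow, mono_right, ← hbν, pow_mul]
    rw [h4]
    refine H.pow_mem ?_ _
    exact Subgroup.subset_closure ⟨i, hi, u, u.2, hb⟩
  have h3 : Additive.toMul (M g w • torHom (X v) (hXne v hv) (Fin.append μ (0 : Fin r' → ℤ))) ∈ H :=
    h2 h1
  have ha0 : a ≠ 0 := by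
    intro h0
    rw [h0, zero_pow hh.ne'] at hμa
    exact mono_ne (hx v hv) μ hμa
  obtain ⟨q, hq⟩ : M g w ∣ ∏ g ∈ Finset.range (D + 1), ∏ w : Fin g → Fin (D + 1), M g w :=
    (Finset.dvd_prod_of_mem (fun w => M g w) (Finset.mem_univ w)).trans
      (Finset.dvd_prod_of_mem (fun g => ∏ w : Fin g → Fin (D + 1), M g w)
        (Finset.mem_range.2 (by omega)))
  refine ⟨(Units.mk0 a ha0) ^ (h * D.factorial * ∏ g ∈ Finset.range (D + 1),
    ∏ w : Fin g → Fin (D + 1), M g w), ?_, by rw [Units.val_pow_eq_pow_val, Units.val_mk0]⟩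
  have h4 : Additive.toMul (M g w • torHom (X v) (hXne v hv) (Fin.append μ (0 : Fin r' → ℤ))) =
      (Units.mk0 a ha0) ^ (h * (D.factorial / f v) * M g w) := by
    refine Units.ext ?_
    rw [toMul_nsmul, Units.val_pow_eq_pow_val, torHom_coe, Units.val_pow_eq_pow_val, Units.val_mk0, hX,
      mono_pow, mono_left, hμa, ← pow_mul, ← pow_mul, mul_assoc]
  rw [h4] at h3
  have e1 : h * D.factorial * ∏ g ∈ Finset.range (D + 1), ∏ w : Fin g → Fin (D + 1), M g w =
      (h * (D.factorial / f v) * M g w) * (f v * q) := by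
    rw [hq]
    have := Nat.div_mul_cancel (hdvd v hv)
    calc h * D.factorial * (M g w * q) = h * (D.factorial / f v * f v) * (M g w * q) := by rw [this]
      _ = _ := by ring
  rw [e1, pow_mul]
  exact H.pow_mem h3 _

/-- **uniform dependence of the archimedean exponents** -/
theorem arch_dep (hc : Pf W c) (U : I → Multiset (Fin r' → ℤ)) (d : I → ℝ) (D : ℕ) :
    ∃ m : ℕ, 0 < m ∧
    ∀ (E : Type) [Fintype E], Fintype.card E = D → ∀ (lam : E → Fin r → ℂ) (lam' : E → Fin r' → ℂ),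
      (∀ G : ℂ → ℝ,
        ∑ j, c j * ∑ τ, ((W j).map fun μ => G (dc (lam τ) μ) + G (-dc (lam τ) μ)).sum =
        ∑ i, d i * ∑ τ, ((U i).map fun ν => G (dc (lam' τ) ν) + G (-dc (lam' τ) ν)).sum) →
      ∀ τ j, ∀ μ ∈ W j, (m : ℂ) * dc (lam τ) μ ∈
        AddSubgroup.closure {e : ℂ | ∃ i, 0 < d i ∧ ∃ τ', ∃ ν ∈ U i, e = dc (lam' τ') ν} := by
  classical
  obtain ⟨m, hm, hall⟩ := two_dep (V := Fin D × Bool) (w := fun _ => 1) (U := U) (d := d) hc
    fun _ => one_pos
  refine ⟨m, hm, ?_⟩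
  intro E _ hcard lam lam' hG τ j μ hμ
  set e : E ≃ Fin D := Fintype.equivFinOfCardEq hcard with he
  set ψ : E → (Fin (r + r') → ℤ) →+ ℂ := fun τ => dcHom (Fin.append (lam τ) (lam' τ)) with hψ
  have hψl : ∀ τ μ, ψ τ (Fin.append μ (0 : Fin r' → ℤ)) = dc (lam τ) μ := fun τ μ =>
    dc_left (lam τ) (lam' τ) μ
  have hψr : ∀ τ ν, ψ τ (Fin.append (0 : Fin r → ℤ) ν) = dc (lam' τ) ν := fun τ ν =>
    dc_right (lam τ) (lam' τ) ν
  have h1 := hall ℂ (fun q => if q.2 then ψ (e.symm q.1) else -ψ (e.symm q.1)) (fun z => by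
    have h2 := hG fun s => if s = z then (1 : ℝ) else 0
    have h3 : ∀ q, ∑ u : Fin D × Bool, ct ((if u.2 then ψ (e.symm u.1) else -ψ (e.symm u.1) :
        (Fin (r + r') → ℤ) →+ ℂ)) (WW W U q) z =
        ∑ τ, ((WW W U q).map fun μ => (if ψ τ μ = z then (1 : ℝ) else 0) +
          if -ψ τ μ = z then 1 else 0).sum := by
      intro q
      rw [Fintype.sum_prod_type, ← Equiv.sum_comp e]
      refine Finset.sum_congr rfl fun τ _ => ?_
      rw [Fintype.sum_bool, Equiv.symm_apply_apply, List.sum_map_add]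
      rfl
    simp only [one_mul]
    rw [Finset.sum_comm, Finset.sum_congr rfl fun q _ => by rw [← Finset.mul_sum, h3 q],
      Fintype.sum_sum_type]
    rw [← sub_eq_zero, sub_eq_add_neg, ← Finset.sum_neg_distrib] at h2
    refine Eq.trans ?_ h2
    congr 1
    · refine Finset.sum_congr rfl fun j _ => ?_
      show c j * _ = _
      congr 1
      refine Finset.sum_congr rfl fun τ _ => ?_
      show (((W j).toList.map fun μ => Fin.append μ (0 : Fin r' → ℤ)).map _).sum = _
      rw [List.map_map, msum_list]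
      congr 1
      refine Multiset.map_congr rfl fun μ _ => ?_
      rw [Function.comp_apply, hψl]
    · refine Finset.sum_congr rfl fun i _ => ?_
      show -d i * _ = _
      rw [neg_mul]
      congr 2
      refine Finset.sum_congr rfl fun τ _ => ?_
      show (((U i).toList.map fun ν => Fin.append (0 : Fin r → ℤ) ν).map _).sum = _
      rw [List.map_map, msum_list]
      congr 1
      refine Multiset.map_congr rfl fun ν _ => ?_
      rw [Function.comp_apply, hψr]) (e τ, true) j μ hμ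
  simp only [if_true, Equiv.symm_apply_apply, nsmul_eq_mul, hψl] at h1
  set K := AddSubgroup.closure {e : ℂ | ∃ i, 0 < d i ∧ ∃ τ', ∃ ν ∈ U i, e = dc (lam' τ') ν} with hK
  refine (AddSubgroup.closure_le K).2 ?_ h1
  rintro s ⟨⟨u, b⟩, i, hi, ν, hν, rfl⟩
  have h4 : dc (lam' (e.symm u)) ν ∈ K := AddSubgroup.subset_closure ⟨i, hi, e.symm u, ν, hν, rfl⟩
  cases b
  · simp only [Bool.false_eq_true, if_false, AddMonoidHom.neg_apply, hψr]
    exact K.neg_mem h4
  · simp only [if_true, hψr]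
    exact h4

end fin

end Pool.Agent.U253.NFD
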