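import Pool.Agent.U253.NFD.Rel

/-!
# Extreme weights, and transfer of bounds
-/

set_option autoImplicit false

namespace Pool.Agent.U253.NFD

open Filter Topology Complex Pool.Agent.U253.SPL

section roots

theorem sum_roots_pow {f k : ℕ} (hf : 0 < f) (h : ¬ f ∣ k) :
    ∑ ζ ∈ Polynomial.nthRootsFinset f (1 : ℂ), ζ ^ k = 0 := by
  have hz := Complex.isPrimitiveRoot_exp f hf.ne'
  set z := Complex.exp (2 * Real.pi * I / f) with hzdef
  have hz0 : z ≠ 0 := Complex.exp_ne_zero _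
  have hz1 : z ^ k ≠ 1 := fun h' => h ((hz.pow_eq_one_iff_dvd k).1 h')
  have h1 : z ^ k * ∑ ζ ∈ Polynomial.nthRootsFinset f (1 : ℂ), ζ ^ k =
      ∑ ζ ∈ Polynomial.nthRootsFinset f (1 : ℂ), ζ ^ k := by
    rw [Finset.mul_sum]
    refine Finset.sum_nbij' (fun ζ => z * ζ) (fun ζ => z⁻¹ * ζ) (fun ζ h => ?_) (fun ζ h => ?_)
      (fun ζ _ => inv_mul_cancel_left₀ hz0 ζ) (fun ζ _ => mul_inv_cancel_left₀ hz0 ζ)
      (fun ζ _ => (mul_pow z ζ k).symm)
    · rw [Polynomial.mem_nthRootsFinset hf] at h ⊢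
      rw [mul_pow, hz.pow_eq_one, one_mul, h]
    · rw [Polynomial.mem_nthRootsFinset hf] at h ⊢
      rw [mul_pow, inv_pow, hz.pow_eq_one, inv_one, one_mul, h]
  have h2 : (z ^ k - 1) * ∑ ζ ∈ Polynomial.nthRootsFinset f (1 : ℂ), ζ ^ k = 0 := by
    rw [sub_mul, one_mul, h1, sub_self]
  exact (mul_eq_zero.1 h2).resolve_left (sub_ne_zero.2 hz1)

theorem blk_pow_zero {f k : ℕ} (hf : 0 < f) (h : ¬ f ∣ k) (y : ℂ) :
    ((blk f y).map fun b => b ^ k).sum = 0 := by
  unfold blk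
  rw [List.map_map, Finset.sum_map_toList]
  have h1 : ∑ ζ ∈ Polynomial.nthRootsFinset f (1 : ℂ), ((fun b => b ^ k) ∘ fun ζ => ζ * rt f y) ζ =
      (∑ ζ ∈ Polynomial.nthRootsFinset f (1 : ℂ), ζ ^ k) * rt f y ^ k := by
    rw [Finset.sum_mul]
    exact Finset.sum_congr rfl fun ζ _ => mul_pow _ _ _
  rw [h1, sum_roots_pow hf h, zero_mul]

/-- the relation for the power sums -/
theorem pow_rel {Q ι : Type} [Fintype Q] {c : Q → ℝ} {P : Finset ι} {f : ι → ℕ}
    {E : Q → ι → List ℂ} (hf : ∀ v ∈ P, 0 < f v)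
    (h : ∀ k : ℕ, ∑ q, (c q : ℂ) * ((lstE P f (E q)).map fun b => b ^ (k + 1)).sum = 0)
    {n : ℕ} (hn : 0 < n) :
    ∑ v ∈ P.filter (fun v => f v ∣ n), (f v : ℂ) *
      ∑ q, (c q : ℂ) * ((E q v).map fun a => a ^ (n / f v)).sum = 0 := by
  classical
  have h1 := h (n - 1)
  rw [Nat.sub_add_cancel hn] at h1
  rw [← h1, Finset.sum_filter]
  have h2 : ∀ q, (c q : ℂ) * ((lstE P f (E q)).map fun b => b ^ n).sum =
      ∑ v ∈ P, if f v ∣ n then (f v : ℂ) * ((c q : ℂ) * ((E q v).map fun a => a ^ (n / f v)).sum)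
        else 0 := by
    intro q
    rw [lstE_sum, Finset.mul_sum]
    refine Finset.sum_congr rfl fun v hv => ?_
    by_cases hd : f v ∣ n
    · rw [if_pos hd]
      have h3 : ∀ a : ℂ, ((blk (f v) a).map fun b => b ^ n).sum = (f v : ℂ) * a ^ (n / f v) := by
        intro a
        have := blk_pow_sum (e := n / f v) (hf v hv) a
        rwa [Nat.mul_div_cancel' hd] at this
      simp only [h3]
      rw [List.sum_map_mul_left]
      ring
    · rw [if_neg hd]
      simp only [blk_pow_zero (hf v hv) hd, List.map_const', List.sum_replicate, smul_zero, mul_zero]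
  rw [Finset.sum_congr rfl fun q _ => h2 q, Finset.sum_comm]
  refine Finset.sum_congr rfl fun v _ => ?_
  by_cases hd : f v ∣ n
  · simp only [if_pos hd]
    rw [Finset.mul_sum]
  · simp only [if_neg hd, Finset.sum_const_zero]

end roots

section face

variable {J : Type} [Fintype J] {r : ℕ}

/-- the extreme weights have a positive total coefficient -/
def Pf (W : J → Multiset (Fin r → ℤ)) (c : J → ℝ) : Prop :=
  ∀ (a : Fin r → ℝ) (M : ℝ), 0 < M → (∀ j, ∀ μ ∈ W j, |∑ k, a k * (μ k : ℝ)| ≤ M) →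
    (∃ j, ∃ μ ∈ W j, |∑ k, a k * (μ k : ℝ)| = M) →
    0 < ∑ j, c j * (((W j).map fun μ => |∑ k, a k * (μ k : ℝ)|).count M : ℝ)

theorem faces_le {V : Type} {W : J → Multiset (Fin r → ℤ)} {c : J → ℝ} (hc : Pf W c) {P : Finset V}
    {w : V → ℝ} (hw : ∀ v ∈ P, 0 < w v) {a : V → Fin r → ℝ} {T : ℝ} (hT : 0 ≤ T)
    (h : ∀ t, T < t → ∑ v ∈ P, w v *
      ∑ j, c j * (((W j).map fun μ => |∑ k, a v k * (μ k : ℝ)|).count t : ℝ) ≤ 0) :
    ∀ v ∈ P, ∀ j, ∀ μ ∈ W j, |∑ k, a v k * (μ k : ℝ)| ≤ T := by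
  classical
  by_contra hcon
  push Not at hcon
  obtain ⟨v₀, hv₀, j₀, μ₀, hμ₀, hlt⟩ := hcon
  set Λ : Finset ℝ := P.biUnion fun v => Finset.univ.biUnion fun j =>
    ((W j).map fun μ => |∑ k, a v k * (μ k : ℝ)|).toFinset with hΛ
  have hmem : ∀ v ∈ P, ∀ j, ∀ μ ∈ W j, |∑ k, a v k * (μ k : ℝ)| ∈ Λ := by
    intro v hv j μ hμ
    exact Finset.mem_biUnion.2 ⟨v, hv, Finset.mem_biUnion.2 ⟨j, Finset.mem_univ _,
      Multiset.mem_toFinset.2 (Multiset.mem_map_of_mem _ hμ)⟩⟩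
  have hne : Λ.Nonempty := ⟨_, hmem v₀ hv₀ j₀ μ₀ hμ₀⟩
  set t : ℝ := Λ.max' hne with ht
  have hle : ∀ v ∈ P, ∀ j, ∀ μ ∈ W j, |∑ k, a v k * (μ k : ℝ)| ≤ t := fun v hv j μ hμ =>
    Finset.le_max' _ _ (hmem v hv j μ hμ)
  have htT : T < t := lt_of_lt_of_le hlt (hle v₀ hv₀ j₀ μ₀ hμ₀)
  have ht0 : 0 < t := lt_of_le_of_lt hT htT
  have htm : t ∈ Λ := Finset.max'_mem _ _
  rw [hΛ, Finset.mem_biUnion] at htm
  obtain ⟨v₁, hv₁, htm⟩ := htm
  rw [Finset.mem_biUnion] at htm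
  obtain ⟨j₁, -, htm⟩ := htm
  rw [Multiset.mem_toFinset, Multiset.mem_map] at htm
  obtain ⟨μ₁, hμ₁, h1⟩ := htm
  have hpos : ∀ v ∈ P, (∃ j, ∃ μ ∈ W j, |∑ k, a v k * (μ k : ℝ)| = t) →
      0 < ∑ j, c j * (((W j).map fun μ => |∑ k, a v k * (μ k : ℝ)|).count t : ℝ) := fun v hv hex =>
    hc (a v) t ht0 (hle v hv) hex
  have h2 : 0 < ∑ v ∈ P, w v *
      ∑ j, c j * (((W j).map fun μ => |∑ k, a v k * (μ k : ℝ)|).count t : ℝ) := by
    refine Finset.sum_pos' (fun v hv => ?_) ⟨v₁, hv₁, ?_⟩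
    · by_cases hex : ∃ j, ∃ μ ∈ W j, |∑ k, a v k * (μ k : ℝ)| = t
      · exact (mul_pos (hw v hv) (hpos v hv hex)).le
      · refine le_of_eq ?_
        push Not at hex
        rw [Finset.sum_eq_zero fun j _ => ?_, mul_zero]
        rw [Multiset.count_eq_zero.2, Nat.cast_zero, mul_zero]
        intro h3
        obtain ⟨μ, hμ, h4⟩ := Multiset.mem_map.1 h3
        exact hex j μ hμ h4
    · exact mul_pos (hw v₁ hv₁) (hpos v₁ hv₁ ⟨j₁, μ₁, hμ₁, h1⟩)
  exact absurd (h t htT) (not_le.2 h2)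

theorem count_sum {α : Type*} (M : Multiset α) (φ : α → ℝ) (t : ℝ) :
    ((M.map φ).count t : ℝ) = (M.map fun a => (open Classical in if φ a = t then (1 : ℝ) else 0)).sum := by
  classical
  induction M using Multiset.induction_on with
  | empty => simp
  | cons a M ih =>
    rw [Multiset.map_cons, Multiset.count_cons, Nat.cast_add, ih, Multiset.map_cons, Multiset.sum_cons,
      add_comm]
    congr 1
    by_cases h : φ a = t
    · rw [if_pos h.symm, if_pos h, Nat.cast_one]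
    · rw [if_neg (Ne.symm h), if_neg h, Nat.cast_zero]

/-- the nonpositive right side -/
theorem right_le {I V : Type} [Fintype I] {d : I → ℝ} {P : Finset V} {w : V → ℝ}
    (hw : ∀ v ∈ P, 0 ≤ w v) {L : I → V → Multiset ℝ} {T t : ℝ} (ht : T < t)
    (hb : ∀ i, 0 < d i → ∀ v ∈ P, ∀ s ∈ L i v, s ≤ T) :
    ∑ v ∈ P, w v * ∑ i, d i * ((L i v).count t : ℝ) ≤ 0 := by
  classical
  refine Finset.sum_nonpos fun v hv => mul_nonpos_of_nonneg_of_nonpos (hw v hv) ?_
  refine Finset.sum_nonpos fun i _ => ?_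
  rcases le_or_gt (d i) 0 with h1 | h1
  · exact mul_nonpos_of_nonpos_of_nonneg h1 (Nat.cast_nonneg _)
  · rw [Multiset.count_eq_zero.2, Nat.cast_zero, mul_zero]
    intro h2
    exact absurd (hb i h1 v hv t h2) (not_le.2 ht)

end face

section finite

variable {ι : Type}

theorem blk_level {f : ℕ} (hf : 0 < f) {a b : ℂ} (hb : b ∈ blk f a) :
    Real.log ‖b‖ = Real.log ‖a‖ / f := by
  have h1 := congrArg (fun z : ℂ => Real.log ‖z‖) (blk_pow hf hb)
  simp only [norm_pow, Real.log_pow] at h1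
  have hf' : (f : ℝ) ≠ 0 := by exact_mod_cast hf.ne'
  rw [← h1]
  field_simp

theorem level_sum {Q : Type} [Fintype Q] {c : Q → ℝ} {P : Finset ι} {f : ι → ℕ}
    (hf : ∀ v ∈ P, 0 < f v) (A : Q → ι → Multiset ℂ) (t : ℝ) :
    ∑ q, c q * ((lstE P f fun v => (A q v).toList).map fun b =>
      (open Classical in if |Real.log ‖b‖| = t then (1 : ℝ) else 0)).sum =
    ∑ v ∈ P, (f v : ℝ) * ∑ q, c q * (((A q v).map fun a => |Real.log ‖a‖ / f v|).count t : ℝ) := by
  classical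
  have h2 : ∀ q, c q * ((lstE P f fun v => (A q v).toList).map fun b =>
      if |Real.log ‖b‖| = t then (1 : ℝ) else 0).sum =
      ∑ v ∈ P, (f v : ℝ) * (c q * (((A q v).map fun a => |Real.log ‖a‖ / f v|).count t : ℝ)) := by
    intro q
    rw [lstE_sum, Finset.mul_sum]
    refine Finset.sum_congr rfl fun v hv => ?_
    have h3 : ∀ a : ℂ, ((blk (f v) a).map fun b => if |Real.log ‖b‖| = t then (1 : ℝ) else 0).sum =
        (f v : ℝ) * if |Real.log ‖a‖ / f v| = t then (1 : ℝ) else 0 := by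
      intro a
      have h4 : ∀ b ∈ blk (f v) a, (if |Real.log ‖b‖| = t then (1 : ℝ) else 0) =
          if |Real.log ‖a‖ / f v| = t then (1 : ℝ) else 0 := by
        intro b hb
        rw [blk_level (hf v hv) hb]
      rw [List.map_congr_left h4, List.map_const', List.sum_replicate, blk_len (hf v hv), nsmul_eq_mul]
    simp only [h3]
    rw [List.sum_map_mul_left, count_sum]
    have h5 : ((A q v).toList.map fun a => if |Real.log ‖a‖ / f v| = t then (1 : ℝ) else 0).sum =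
        ((A q v).map fun a => if |Real.log ‖a‖ / f v| = t then (1 : ℝ) else 0).sum := by
      conv_rhs => rw [← Multiset.coe_toList (A q v), Multiset.map_coe, Multiset.sum_coe]
    rw [h5]
    ring
  rw [Finset.sum_congr rfl fun q _ => h2 q, Finset.sum_comm]
  exact Finset.sum_congr rfl fun v _ => (Finset.mul_sum _ _ _).symm

theorem log_mono {r : ℕ} {x : Fin r → ℂ} (hx : ∀ k, x k ≠ 0) (μ : Fin r → ℤ) :
    Real.log ‖mono x μ‖ = ∑ k, (μ k : ℝ) * Real.log ‖x k‖ := by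
  unfold mono
  rw [norm_prod, Real.log_prod fun k _ => (norm_pos_iff.2 (zpow_ne_zero _ (hx k))).ne']
  refine Finset.sum_congr rfl fun k _ => ?_
  rw [norm_zpow, Real.log_zpow]

/-- **transfer of bounds at the places above one prime** -/
theorem fin_transfer {J I : Type} [Fintype J] [Fintype I] {r : ℕ} {W : J → Multiset (Fin r → ℤ)}
    {c : J → ℝ} {d : I → ℝ} (hc : Pf W c) {P : Finset ι} {f : ι → ℕ} (hf : ∀ v ∈ P, 0 < f v)
    {α : J → ι → Multiset ℂ} {β : I → ι → Multiset ℂ}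
    (hsat : ∀ v ∈ P, ∃ h : ℕ, 0 < h ∧ ∃ x : Fin r → ℂ, (∀ k, x k ≠ 0) ∧
      ∀ j, (α j v).map (fun a => a ^ h) = (W j).map (mono x))
    (hrel : ∀ t : ℝ,
      ∑ v ∈ P, (f v : ℝ) * ∑ j, c j * (((α j v).map fun a => |Real.log ‖a‖ / f v|).count t : ℝ) =
      ∑ v ∈ P, (f v : ℝ) * ∑ i, d i * (((β i v).map fun b => |Real.log ‖b‖ / f v|).count t : ℝ))
    {T : ℝ} (hT : 0 ≤ T)
    (hb : ∀ v ∈ P, ∀ i, 0 < d i → ∀ b ∈ β i v, |Real.log ‖b‖ / f v| ≤ T) :
    ∀ v ∈ P, ∀ j, ∀ a ∈ α j v, |Real.log ‖a‖ / f v| ≤ T := by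
  classical
  choose! h hh x hx hxW using hsat
  set a : ι → Fin r → ℝ := fun v k => Real.log ‖x v k‖ / (h v * f v) with ha
  have hlev : ∀ v ∈ P, ∀ j, (α j v).map (fun z => |Real.log ‖z‖ / f v|) =
      (W j).map fun μ => |∑ k, a v k * (μ k : ℝ)| := by
    intro v hv j
    have hf' : (f v : ℝ) ≠ 0 := by exact_mod_cast (hf v hv).ne'
    have hh' : (h v : ℝ) ≠ 0 := by exact_mod_cast (hh v hv).ne'
    have h1 := congrArg (Multiset.map fun z : ℂ => |Real.log ‖z‖ / (h v * f v)|) (hxW v hv j)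
    rw [Multiset.map_map, Multiset.map_map] at h1
    have e1 : ((fun z : ℂ => |Real.log ‖z‖ / (h v * f v)|) ∘ fun a => a ^ h v) =
        fun z : ℂ => |Real.log ‖z‖ / f v| := by
      funext z
      simp only [Function.comp_apply, norm_pow, Real.log_pow]
      congr 1
      field_simp
    have e2 : ((fun z : ℂ => |Real.log ‖z‖ / (h v * f v)|) ∘ mono (x v)) =
        fun μ => |∑ k, a v k * (μ k : ℝ)| := by
      funext μ
      simp only [Function.comp_apply]
      rw [log_mono (hx v hv), Finset.sum_div]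
      congr 1
      refine Finset.sum_congr rfl fun k _ => ?_
      rw [ha]
      ring
    rw [e1, e2] at h1
    exact h1
  have h1 := faces_le hc (P := P) (w := fun v => (f v : ℝ)) (fun v hv => by exact_mod_cast hf v hv)
    (a := a) hT fun t ht => by
      have h2 := hrel t
      rw [Finset.sum_congr rfl fun v hv => by
        rw [Finset.sum_congr rfl fun j _ => by rw [hlev v hv j]]] at h2
      rw [h2]
      refine right_le (L := fun i v => (β i v).map fun b => |Real.log ‖b‖ / f v|)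
        (fun v _ => Nat.cast_nonneg _) ht fun i hi v hv s hs => ?_
      obtain ⟨b, hb', rfl⟩ := Multiset.mem_map.1 hs
      exact hb v hv i hi b hb'
  intro v hv j z hz
  have h2 : |Real.log ‖z‖ / f v| ∈ (W j).map fun μ => |∑ k, a v k * (μ k : ℝ)| := by
    rw [← hlev v hv j]
    exact Multiset.mem_map_of_mem _ hz
  obtain ⟨μ, hμ, h3⟩ := Multiset.mem_map.1 h2
  rw [← h3]
  exact h1 v hv j μ hμ

end finite

end Pool.Agent.U253.NFD
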