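import Pool.Agent.U253.NFD.Tor
import Mathlib.NumberTheory.RamificationInertia.Inertia
import Mathlib.NumberTheory.RamificationInertia.Ramification
import Mathlib.RingTheory.Ideal.Norm.AbsNorm
import Mathlib.NumberTheory.NumberField.Basic

/-!
# `GL_n` over number fields: preparations
-/

set_option autoImplicit false

namespace Pool.Agent.U253.NFD

open Filter Topology Complex Pool.Agent.N210.FV Pool.Agent.N210.FW Pool.Agent.N845.SP
open Pool.Agent.U253.SPL Pool.Agent.U253.GAP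
open NumberField

section total

variable {J V E : Type} [Fintype J] [Fintype V] [Fintype E] {r : ℕ} {W : J → List (Fin r → ℤ)}
  {c : J → ℝ} {w : V → ℝ}

theorem abs_total [Nonempty V] (hw : ∀ v, 0 < w v) {A : Type*} {val : V → (Fin r → ℤ) → A}
    (hz : ∀ z : A, ∑ u, w u * ∑ j, c j * ct (val u) (W j) z = 0) :
    ∑ j, c j * ((W j).length : ℝ) = 0 := by
  refine total_zero (a := fun _ : V => (0 : Fin r → ℤ)) hw fun t => ?_
  refine push (val := val) (lev := fun _ => dt 0) (fun u u' i i' μ _ μ' _ _ => ?_) hz t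
  simp [dt]

theorem arch_total [Nonempty E] {lam : E → Fin r → ℂ}
    (h : ∀ z : ℂ, ∑ j, c j * ∑ τ, (ct (dc (lam τ)) (W j) z + ct (fun μ => -dc (lam τ) μ) (W j) z) = 0) :
    ∑ j, c j * ((W j).length : ℝ) = 0 := by
  classical
  refine abs_total (V := E × Bool) (w := fun _ => 1) (fun _ => one_pos)
    (val := fun q μ => if q.2 then dc (lam q.1) μ else -dc (lam q.1) μ) fun z => ?_
  rw [← h z]
  simp only [one_mul]
  rw [Finset.sum_comm]
  refine Finset.sum_congr rfl fun j _ => ?_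
  rw [← Finset.mul_sum, Fintype.sum_prod_type]
  congr 1
  refine Finset.sum_congr rfl fun τ _ => ?_
  rw [Fintype.sum_bool]
  rfl

end total

section sym

variable {n : ℕ}

theorem perm_of_map {α : Type*} {f g : Fin n → α}
    (h : (Finset.univ : Finset (Fin n)).val.map f = (Finset.univ : Finset (Fin n)).val.map g) :
    ∃ σ : Equiv.Perm (Fin n), ∀ k, f k = g (σ k) := by
  classical
  have hc : ∀ c, Fintype.card {a // f a = c} = Fintype.card {b // g b = c} := by
    intro c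
    have h1 := congrArg (Multiset.count c) h
    rw [Multiset.count_map, Multiset.count_map] at h1
    rw [Fintype.card_subtype, Fintype.card_subtype]
    simpa [Finset.card_def, Finset.filter_val, eq_comm] using h1
  exact ⟨Equiv.ofFiberEquiv fun c => Fintype.equivOfCardEq (hc c),
    fun k => (Equiv.ofFiberEquiv_map (fun c => Fintype.equivOfCardEq (hc c)) k).symm⟩

theorem mono_comp (x : Fin n → ℂ) (μ : Fin n → ℤ) (σ : Equiv.Perm (Fin n)) :
    mono x (μ ∘ σ) = ∏ k, x (σ.symm k) ^ μ k := by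
  unfold mono
  rw [← Equiv.prod_comp σ fun k => x (σ.symm k) ^ μ k]
  refine Finset.prod_congr rfl fun k _ => ?_
  rw [Equiv.symm_apply_apply]
  rfl

/-- unitarity for all symmetric multisets of weights -/
theorem herm_sym {x : Fin n → ℂ}
    (hu : (Finset.univ : Finset (Fin n)).val.map (fun k => ((starRingEnd ℂ) (x k))⁻¹) =
      (Finset.univ : Finset (Fin n)).val.map x) {M : Multiset (Fin n → ℤ)}
    (hM : ∀ σ : Equiv.Perm (Fin n), M.map (fun μ => μ ∘ σ) = M) :
    (M.map fun μ => ((starRingEnd ℂ) (mono x μ))⁻¹) = M.map (mono x) := by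
  classical
  obtain ⟨σ, hσ⟩ := perm_of_map hu
  have h1 : ∀ μ, ((starRingEnd ℂ) (mono x μ))⁻¹ = mono x (μ ∘ σ.symm) := by
    intro μ
    rw [mono_comp, Equiv.symm_symm]
    unfold mono
    rw [map_prod, ← Finset.prod_inv_distrib]
    refine Finset.prod_congr rfl fun k _ => ?_
    have h2 := hσ k
    rw [map_zpow₀, ← inv_zpow, h2]
  simp only [h1]
  nth_rw 2 [← hM σ.symm]
  rw [Multiset.map_map]
  rfl

theorem mono_swap {x : Fin n → ℂ} (hx : ∀ k, x k ≠ 0) (μ : Fin n → ℤ) {a b : Fin n} (hab : a ≠ b) :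
    mono x μ = mono x (μ ∘ Equiv.swap a b) * (x a / x b) ^ (μ a - μ b) := by
  classical
  unfold mono
  have h1 : ∀ F : Fin n → ℂ, ∏ k, F k = F a * (F b * ∏ k ∈ (Finset.univ.erase a).erase b, F k) := by
    intro F
    rw [← Finset.mul_prod_erase Finset.univ F (Finset.mem_univ a),
      ← Finset.mul_prod_erase (Finset.univ.erase a) F
        (Finset.mem_erase.2 ⟨hab.symm, Finset.mem_univ b⟩)]
  rw [h1, h1 fun k => x k ^ (μ ∘ Equiv.swap a b) k]
  have h2 : ∏ k ∈ (Finset.univ.erase a).erase b, x k ^ (μ ∘ Equiv.swap a b) k =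
      ∏ k ∈ (Finset.univ.erase a).erase b, x k ^ μ k := by
    refine Finset.prod_congr rfl fun k hk => ?_
    rw [Finset.mem_erase, Finset.mem_erase] at hk
    rw [Function.comp_apply, Equiv.swap_apply_of_ne_of_ne hk.2.1 hk.1]
  rw [h2]
  simp only [Function.comp_apply, Equiv.swap_apply_left, Equiv.swap_apply_right]
  rw [div_zpow, zpow_sub₀ (hx a), zpow_sub₀ (hx b)]
  have ha := zpow_ne_zero (μ a) (hx a)
  have ha' := zpow_ne_zero (μ b) (hx a)
  have hb := zpow_ne_zero (μ a) (hx b)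
  have hb' := zpow_ne_zero (μ b) (hx b)
  field_simp

theorem dc_swap (ν : Fin n → ℂ) (μ : Fin n → ℤ) {a b : Fin n} (hab : a ≠ b) :
    dc ν μ = dc ν (μ ∘ Equiv.swap a b) + ((μ a - μ b : ℤ) : ℂ) * (ν a - ν b) := by
  classical
  unfold dc
  have h1 : ∀ F : Fin n → ℂ, ∑ k, F k = F a + (F b + ∑ k ∈ (Finset.univ.erase a).erase b, F k) := by
    intro F
    rw [← Finset.add_sum_erase Finset.univ F (Finset.mem_univ a),
      ← Finset.add_sum_erase (Finset.univ.erase a) F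
        (Finset.mem_erase.2 ⟨hab.symm, Finset.mem_univ b⟩)]
  rw [h1, h1 fun k => ((μ ∘ Equiv.swap a b) k : ℂ) * ν k]
  have h2 : ∑ k ∈ (Finset.univ.erase a).erase b, ((μ ∘ Equiv.swap a b) k : ℂ) * ν k =
      ∑ k ∈ (Finset.univ.erase a).erase b, (μ k : ℂ) * ν k := by
    refine Finset.sum_congr rfl fun k hk => ?_
    rw [Finset.mem_erase, Finset.mem_erase] at hk
    rw [Function.comp_apply, Equiv.swap_apply_of_ne_of_ne hk.2.1 hk.1]
  rw [h2]
  simp only [Function.comp_apply, Equiv.swap_apply_left, Equiv.swap_apply_right]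
  push_cast
  ring

/-- moving a pair -/
theorem exists_perm {a b i k : Fin n} (hab : a ≠ b) (hik : i ≠ k) :
    ∃ σ : Equiv.Perm (Fin n), σ i = a ∧ σ k = b := by
  classical
  refine ⟨(Equiv.swap i a).trans (Equiv.swap (Equiv.swap i a k) b), ?_, ?_⟩
  · rw [Equiv.trans_apply, Equiv.swap_apply_left]
    refine Equiv.swap_apply_of_ne_of_ne ?_ hab
    intro h
    have h2 : Equiv.swap i a i = Equiv.swap i a k := by
      rw [Equiv.swap_apply_left]
      exact h
    exact hik ((Equiv.swap i a).injective h2)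
  · rw [Equiv.trans_apply, Equiv.swap_apply_left]

/-- torsion of the ratios -/
theorem ratio_tor {x : Fin n → ℂ} (hx : ∀ k, x k ≠ 0) {M : Multiset (Fin n → ℤ)}
    (hM : ∀ σ : Equiv.Perm (Fin n), M.map (fun μ => μ ∘ σ) = M) {m : ℕ}
    (h : ∀ μ ∈ M, ∀ μ' ∈ M, mono x μ ^ m = mono x μ' ^ m) {μ : Fin n → ℤ} (hμ : μ ∈ M)
    {a b : Fin n} (hab : μ a ≠ μ b) (i k : Fin n) :
    x i ^ (m * (μ a - μ b).natAbs) = x k ^ (m * (μ a - μ b).natAbs) := by
  classical
  by_cases hik : i = k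
  · rw [hik]
  have hab' : a ≠ b := fun h' => hab (by rw [h'])
  obtain ⟨σ, hσi, hσk⟩ := exists_perm hab' hik
  have hmem : ∀ (σ : Equiv.Perm (Fin n)) (μ : Fin n → ℤ), μ ∈ M → μ ∘ σ ∈ M := by
    intro σ μ hμ
    rw [← hM σ]
    exact Multiset.mem_map_of_mem _ hμ
  have h1 := h _ (hmem σ μ hμ) _ (hmem (Equiv.swap i k) _ (hmem σ μ hμ))
  rw [mono_swap hx (μ ∘ σ) hik, mul_pow] at h1
  have h2 : mono x ((μ ∘ σ) ∘ Equiv.swap i k) ^ m ≠ 0 := pow_ne_zero _ (mono_ne hx _)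
  have h3 : ((x i / x k) ^ (μ a - μ b)) ^ m = 1 := by
    simp only [Function.comp_apply, hσi, hσk] at h1
    have h4 := mul_left_cancel₀ h2 (h1.trans (mul_one _).symm)
    exact h4
  have h5 : (x i / x k) ^ (m * (μ a - μ b).natAbs) = 1 := by
    rcases Int.natAbs_eq (μ a - μ b) with h6 | h6
    · rw [h6, zpow_natCast] at h3
      rw [mul_comm, pow_mul]
      exact h3
    · rw [h6, zpow_neg, zpow_natCast, inv_pow, inv_eq_one] at h3
      rw [mul_comm, pow_mul]
      exact h3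
  rw [div_pow, div_eq_one_iff_eq (pow_ne_zero _ (hx k))] at h5
  exact h5

/-- equality of the exponents -/
theorem exp_eq {ν : Fin n → ℂ} {M : Multiset (Fin n → ℤ)}
    (hM : ∀ σ : Equiv.Perm (Fin n), M.map (fun μ => μ ∘ σ) = M)
    (h : ∀ μ ∈ M, ∀ μ' ∈ M, dc ν μ = dc ν μ') {μ : Fin n → ℤ} (hμ : μ ∈ M)
    {a b : Fin n} (hab : μ a ≠ μ b) (i k : Fin n) : ν i = ν k := by
  classical
  by_cases hik : i = k
  · rw [hik]
  have hab' : a ≠ b := fun h' => hab (by rw [h'])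
  obtain ⟨σ, hσi, hσk⟩ := exists_perm hab' hik
  have hmem : ∀ (σ : Equiv.Perm (Fin n)) (μ : Fin n → ℤ), μ ∈ M → μ ∘ σ ∈ M := by
    intro σ μ hμ
    rw [← hM σ]
    exact Multiset.mem_map_of_mem _ hμ
  have h1 := h _ (hmem σ μ hμ) _ (hmem (Equiv.swap i k) _ (hmem σ μ hμ))
  rw [dc_swap ν (μ ∘ σ) hik] at h1
  simp only [Function.comp_apply, hσi, hσk] at h1
  have h2 : ((μ a - μ b : ℤ) : ℂ) * (ν i - ν k) = 0 := by
    have := sub_eq_zero.2 h1
    linear_combination this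
  have h3 : ((μ a - μ b : ℤ) : ℂ) ≠ 0 := by exact_mod_cast sub_ne_zero.2 hab
  exact sub_eq_zero.1 ((mul_eq_zero.1 h2).resolve_left h3)

/-- temperedness -/
theorem norm_one_of {x : Fin n → ℂ} (hx : ∀ k, x k ≠ 0)
    (hu : (Finset.univ : Finset (Fin n)).val.map (fun k => ((starRingEnd ℂ) (x k))⁻¹) =
      (Finset.univ : Finset (Fin n)).val.map x) {m : ℕ} (hm : 0 < m)
    (h : ∀ i k, x i ^ m = x k ^ m) (i : Fin n) : ‖x i‖ = 1 := by
  classical
  obtain ⟨σ, hσ⟩ := perm_of_map hu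
  have h1 := hσ i
  have h2 := congrArg norm (h (σ i) i)
  rw [norm_pow, norm_pow] at h2
  have h3 : ‖x (σ i)‖ = ‖x i‖ :=
    (pow_left_inj₀ (norm_nonneg _) (norm_nonneg _) hm.ne').1 h2
  have h4 : ‖x i‖⁻¹ = ‖x i‖ := by
    calc ‖x i‖⁻¹ = ‖((starRingEnd ℂ) (x i))⁻¹‖ := by rw [norm_inv, Complex.norm_conj]
      _ = ‖x (σ i)‖ := by rw [h1]
      _ = ‖x i‖ := h3
  have h5 : 0 < ‖x i‖ := norm_pos_iff.2 (hx i)
  have h6 : ‖x i‖ * ‖x i‖ = 1 := by
    nth_rw 1 [← h4]
    exact inv_mul_cancel₀ h5.ne'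
  nlinarith

end sym

section places

variable (K : Type) [Field K] [NumberField K]

theorem places_facts {p : ℕ} (hp : p.Prime) :
    (∀ v ∈ IsDedekindDomain.primesOverFinset (Ideal.span {(p : ℤ)}) (𝓞 K),
      0 < (Ideal.span {(p : ℤ)}).inertiaDeg' v ∧
      Ideal.absNorm v = p ^ (Ideal.span {(p : ℤ)}).inertiaDeg' v) ∧
    ∑ v ∈ IsDedekindDomain.primesOverFinset (Ideal.span {(p : ℤ)}) (𝓞 K),
      (Ideal.span {(p : ℤ)}).inertiaDeg' v ≤ Module.finrank ℚ K := by
  have hp0 : (Ideal.span {(p : ℤ)}) ≠ ⊥ := by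
    rw [Ne, Ideal.span_singleton_eq_bot]
    exact_mod_cast hp.ne_zero
  have hmax : (Ideal.span {(p : ℤ)}).IsMaximal :=
    PrincipalIdealRing.isMaximal_of_irreducible (Nat.prime_iff_prime_int.1 hp).irreducible
  constructor
  · intro v hv
    obtain ⟨h1, h2⟩ := (IsDedekindDomain.mem_primesOverFinset_iff hp0 _).1 hv
    refine ⟨Nat.pos_of_ne_zero (Ideal.inertiaDeg'_ne_zero _ v), Ideal.absNorm_eq_pow_inertiaDeg' v hp⟩
  · rw [← Ideal.sum_ramification_inertia (𝓞 K) ℚ K hp0]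
    refine Finset.sum_le_sum fun v hv => ?_
    obtain ⟨h1, h2⟩ := (IsDedekindDomain.mem_primesOverFinset_iff hp0 _).1 hv
    exact Nat.le_mul_of_pos_left _ (Nat.pos_of_ne_zero
      (Ideal.IsDedekindDomain.ramificationIdx'_ne_zero_of_liesOver _ hp0))

/-- the degree as a function of the place -/
noncomputable def fdeg (v : Ideal (𝓞 K)) : ℕ := (Ideal.absNorm v).primeFactorsList.length

theorem fdeg_eq {p : ℕ} (hp : p.Prime) {v : Ideal (𝓞 K)}
    (hv : v ∈ IsDedekindDomain.primesOverFinset (Ideal.span {(p : ℤ)}) (𝓞 K)) :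
    fdeg K v = (Ideal.span {(p : ℤ)}).inertiaDeg' v := by
  unfold fdeg
  rw [((places_facts K hp).1 v hv).2, hp.primeFactorsList_pow, List.length_replicate]

theorem norm_cpow {p : ℕ} (hp : p.Prime) {v : Ideal (𝓞 K)}
    (hv : v ∈ IsDedekindDomain.primesOverFinset (Ideal.span {(p : ℤ)}) (𝓞 K)) (s : ℂ) :
    ((Ideal.absNorm v : ℕ) : ℂ) ^ (-s) = ((p : ℂ) ^ (-s)) ^ fdeg K v := by
  rw [fdeg_eq K hp hv, ((places_facts K hp).1 v hv).2]
  generalize (Ideal.span {(p : ℤ)}).inertiaDeg' v = e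
  induction e with
  | zero => simp
  | succ e ih =>
    rw [pow_succ, pow_succ, ← ih, Nat.cast_mul, Complex.natCast_mul_natCast_cpow]

end places

end Pool.Agent.U253.NFD
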