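import Pool.Agent.U253.NFD.GLn

/-!
# Relations between families of Euler products over a number field
-/

set_option autoImplicit false

namespace Pool.Agent.U253.NFD

open Filter Topology Complex Pool.Agent.N210.FV Pool.Agent.N210.FW Pool.Agent.N845.SP
open Pool.Agent.U253.SPL Pool.Agent.U253.GAP
open Pool.Agent.U253.EEA (Half FEq mo_app)

section lists

variable {Q : Type} [Fintype Q] {L : Q → List ℂ} {c : Q → ℝ}

theorem list_rel (h : ∀ k : ℕ, ∑ q, (c q : ℂ) * ((L q).map fun b => b ^ (k + 1)).sum = 0)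
    {z : ℂ} (hz : z ≠ 0) :
    ∑ q, c q * ((L q).map fun b => (open Classical in if b = z then (1 : ℝ) else 0)).sum = 0 := by
  classical
  have h2 := Bm_vanish (β := fun (q : Q) (_ : ℕ) i => (L q).getD i 0)
    (Ix := fun q => Finset.range (L q).length) (c := c) (p := 0) (fun k => by
      refine Eq.trans ?_ (h k)
      refine Finset.sum_congr rfl fun q _ => ?_
      congr 1
      exact sum_getD (L q) 0 fun b => b ^ (k + 1)) hz
  unfold Bm at h2
  refine Eq.trans ?_ h2
  refine Finset.sum_congr rfl fun q _ => ?_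
  congr 1
  exact (sum_getD (L q) 0 fun b => if b = z then (1 : ℝ) else 0).symm

theorem list_fun
    (h : ∀ z : ℂ, ∑ q, c q * ((L q).map fun b => (open Classical in if b = z then (1 : ℝ) else 0)).sum = 0)
    (G : ℂ → ℝ) : ∑ q, c q * ((L q).map G).sum = 0 := by
  classical
  set T : Finset ℂ := Finset.univ.biUnion fun q => (L q).toFinset with hT
  have hmem : ∀ q, ∀ b ∈ L q, b ∈ T := fun q b hb =>
    Finset.mem_biUnion.2 ⟨q, Finset.mem_univ _, List.mem_toFinset.2 hb⟩
  have key : ∀ l : List ℂ, (∀ b ∈ l, b ∈ T) → (l.map G).sum =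
      ∑ z ∈ T, G z * (l.map fun b => if b = z then (1 : ℝ) else 0).sum := by
    intro l
    induction l with
    | nil => simp
    | cons b l ih =>
      intro hl
      rw [List.map_cons, List.sum_cons, ih fun b' hb' => hl b' (List.mem_cons_of_mem _ hb')]
      simp only [List.map_cons, List.sum_cons, mul_add, Finset.sum_add_distrib]
      congr 1
      rw [Finset.sum_eq_single b]
      · simp
      · intro z _ hz
        rw [if_neg (Ne.symm hz), mul_zero]
      · intro h0
        exact absurd (hl b List.mem_cons_self) h0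
  have h1 : ∀ q, c q * ((L q).map G).sum =
      ∑ z ∈ T, G z * (c q * ((L q).map fun b => if b = z then (1 : ℝ) else 0).sum) := by
    intro q
    rw [key (L q) (hmem q), Finset.mul_sum]
    exact Finset.sum_congr rfl fun z _ => by ring
  rw [Finset.sum_congr rfl fun q _ => h1 q, Finset.sum_comm]
  refine Finset.sum_eq_zero fun z _ => ?_
  rw [← Finset.mul_sum]
  have := h z
  rw [this, mul_zero]

theorem list_all (hne : ∀ q, ∀ b ∈ L q, b ≠ 0)
    (h : ∀ k : ℕ, ∑ q, (c q : ℂ) * ((L q).map fun b => b ^ (k + 1)).sum = 0) (G : ℂ → ℝ) :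
    ∑ q, c q * ((L q).map G).sum = 0 := by
  classical
  refine list_fun (fun z => ?_) G
  by_cases hz : z = 0
  · refine Finset.sum_eq_zero fun q _ => ?_
    have : ((L q).map fun b => if b = z then (1 : ℝ) else 0) = (L q).map fun _ => (0 : ℝ) :=
      List.map_congr_left fun b hb => if_neg fun h' => hne q b hb (h'.trans hz)
    rw [this]
    simp
  · exact list_rel h hz

theorem sum_flat' {M α β : Type*} [AddCommMonoid M] (l : List α) (g : α → List β) (F : β → M) :
    ((l.flatMap g).map F).sum = (l.map fun a => ((g a).map F).sum).sum := by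
  induction l with
  | nil => simp
  | cons a l ih => simp [List.flatMap_cons, ih]

/-- all parameters above one prime -/
noncomputable def lstE {ι : Type} (P : Finset ι) (f : ι → ℕ) (E : ι → List ℂ) : List ℂ :=
  P.toList.flatMap fun v => (E v).flatMap (blk (f v))

theorem lstE_sum {M : Type*} [AddCommMonoid M] {ι : Type} (P : Finset ι) (f : ι → ℕ)
    (E : ι → List ℂ) (F : ℂ → M) :
    ((lstE P f E).map F).sum = ∑ v ∈ P, ((E v).map fun a => ((blk (f v) a).map F).sum).sum := by
  unfold lstE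
  rw [sum_flat', Finset.sum_map_toList]
  exact Finset.sum_congr rfl fun v _ => sum_flat' _ _ _

theorem mem_lstE {ι : Type} {P : Finset ι} {f : ι → ℕ} {E : ι → List ℂ} {b : ℂ} :
    b ∈ lstE P f E ↔ ∃ v ∈ P, ∃ a ∈ E v, b ∈ blk (f v) a := by
  unfold lstE
  simp only [List.mem_flatMap, Finset.mem_toList]

end lists

section big

variable {Q : Type} [Fintype Q] (n : Q → ℕ)

/-- the numbering of all coordinates -/
noncomputable def enc : (Σ q : Q, Fin (n q)) ≃ Fin (Fintype.card (Σ q : Q, Fin (n q))) :=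
  Fintype.equivFin _

/-- the standard weights -/
noncomputable def bW (q : Q) : List (Fin (Fintype.card (Σ q : Q, Fin (n q))) → ℤ) :=
  List.ofFn fun t : Fin (n q) => Pi.single (enc n ⟨q, t⟩) 1

/-- the point with given coordinates -/
noncomputable def bX (L : Q → List ℂ) : Fin (Fintype.card (Σ q : Q, Fin (n q))) → ℂ :=
  fun k => (L ((enc n).symm k).1).getD ((enc n).symm k).2 0

theorem ofFn_getD {l : List ℂ} {m : ℕ} (h : l.length = m) :
    (List.ofFn fun t : Fin m => l.getD t 0) = l := by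
  subst h
  refine List.ext_getElem (by simp) fun i h1 h2 => ?_
  simp

theorem bX_enc (L : Q → List ℂ) (q : Q) (t : Fin (n q)) :
    bX n L (enc n ⟨q, t⟩) = (L q).getD t 0 := by
  unfold bX
  rw [Equiv.symm_apply_apply]

theorem map_mono {L : Q → List ℂ} {q : Q} (h : (L q).length = n q) :
    (bW n q).map (mono (bX n L)) = L q := by
  unfold bW
  rw [List.map_ofFn]
  have h1 : (mono (bX n L) ∘ fun t : Fin (n q) => Pi.single (enc n ⟨q, t⟩) (1 : ℤ)) =
      fun t : Fin (n q) => (L q).getD t 0 := by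
    funext t
    have h2 := mono_single (bX n L) (enc n ⟨q, t⟩) 1
    rw [one_smul, pow_one, bX_enc] at h2
    exact h2
  rw [h1]
  exact ofFn_getD h

theorem map_dc {L : Q → List ℂ} {q : Q} (h : (L q).length = n q) :
    (bW n q).map (dc (bX n L)) = L q := by
  unfold bW
  rw [List.map_ofFn]
  have h1 : (dc (bX n L) ∘ fun t : Fin (n q) => Pi.single (enc n ⟨q, t⟩) (1 : ℤ)) =
      fun t : Fin (n q) => (L q).getD t 0 := by
    funext t
    have h2 := dc_single (bX n L) (enc n ⟨q, t⟩) 1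
    rw [one_smul, Nat.cast_one, one_mul, bX_enc] at h2
    exact h2
  rw [h1]
  exact ofFn_getD h

theorem map_comp {M : Type*} {L : Q → List ℂ} {q : Q} (h : (L q).length = n q) (H : ℂ → M) :
    ((bW n q).map fun μ => H (mono (bX n L) μ)) = (L q).map H := by
  conv_rhs => rw [← map_mono n h]
  rw [List.map_map]
  rfl

theorem map_comp_dc {M : Type*} {L : Q → List ℂ} {q : Q} (h : (L q).length = n q) (H : ℂ → M) :
    ((bW n q).map fun μ => H (dc (bX n L) μ)) = (L q).map H := by
  conv_rhs => rw [← map_dc n h]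
  rw [List.map_map]
  rfl

end big

section gap

variable {Q ι : Type} [Fintype Q] {n : Q → ℕ} {d : ℕ} {c : Q → ℝ} {S : Finset ℕ}
  {V : ℕ → Finset ι} {f : ι → ℕ} {E : Q → ι → List ℂ}

theorem lst_eq {P : Finset ι} {q : Q} (hn : ∀ v ∈ P, (E q v).length = n q) :
    lst P f (fun v => bX n fun q => E q v) (bW n q) = lstE P f (E q) := by
  unfold lst lstE
  refine List.flatMap_congr fun v hv => ?_
  rw [Finset.mem_toList] at hv
  conv_rhs => rw [← map_mono n (L := fun q => E q v) (hn v hv)]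
  rw [List.flatMap_map]

/-- the gap theorem for lists of parameters -/
theorem gap_list {m m' : Q → List ℂ} {N D N' D' : Q → ℂ → ℂ} {g : ℕ → ℝ} {B : ℝ}
    (hf : ∀ p : ℕ, p.Prime → p ∉ S → ∀ v ∈ V p, 0 < f v)
    (hd : ∀ p : ℕ, p.Prime → p ∉ S → ∑ v ∈ V p, f v ≤ d)
    (hn : ∀ p : ℕ, p.Prime → p ∉ S → ∀ v ∈ V p, ∀ q, (E q v).length = n q)
    (hherm : ∀ p : ℕ, p.Prime → p ∉ S → ∀ v ∈ V p, ∀ q,
      ((E q v).map fun a => ((starRingEnd ℂ) a)⁻¹).Perm (E q v))
    (hL : ∀ q, HK S (fun p s => ∏ v ∈ V p,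
      ((E q v).map fun a => (1 - a * ((p : ℂ) ^ (-s)) ^ f v)⁻¹).prod) (N q) (D q))
    (hL' : ∀ q, HK S (fun p s => ∏ v ∈ V p,
      ((E q v).map fun a => (1 - a⁻¹ * ((p : ℂ) ^ (-s)) ^ f v)⁻¹).prod) (N' q) (D' q))
    (hF : ∀ q, FEq S (m q) (m' q) (N q) (D q) (N' q) (D' q))
    (hg0 : ∀ p, 0 ≤ g p) (hlit : Lit S g)
    (hbd : ∀ p : ℕ, p.Prime → p ∉ S →
      ((∀ v ∈ V p, ∀ q, ∀ a ∈ E q v, ‖a‖ ≤ B) ∧
        ‖∑ v ∈ (V p).filter (fun v => f v = 1), ∑ q, (c q : ℂ) * (E q v).sum‖ ≤ g p) ∨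
      ∀ v ∈ V p, ∀ q, ∀ a ∈ E q v, ‖a‖ ≤ g p ^ f v) :
    (∀ p : ℕ, p.Prime → p ∉ S → ∀ k : ℕ,
      ∑ q, (c q : ℂ) * ((lstE (V p) f (E q)).map fun b => b ^ (k + 1)).sum = 0) ∧
    ∀ z : ℂ, ∑ q, c q * (((mo (gi (m q)) (1 - z) : ℝ) + mo (gi (m' q)) (1 - z)) -
      (mo (gi (m q)) z + mo (gi (m' q)) z)) = 0 := by
  classical
  set x : ι → Fin (Fintype.card (Σ q : Q, Fin (n q))) → ℂ := fun v => bX n fun q => E q v with hx
  have hmap : ∀ p : ℕ, p.Prime → p ∉ S → ∀ v ∈ V p, ∀ q, (bW n q).map (mono (x v)) = E q v :=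
    fun p hp hpS v hv q => map_mono n (L := fun q => E q v) (hn p hp hpS v hv q)
  have hmem : ∀ p : ℕ, p.Prime → p ∉ S → ∀ v ∈ V p, ∀ q, ∀ μ ∈ bW n q, mono (x v) μ ∈ E q v := by
    intro p hp hpS v hv q μ hμ
    rw [← hmap p hp hpS v hv q]
    exact List.mem_map.2 ⟨μ, hμ, rfl⟩
  obtain ⟨h1, h2⟩ := nf_gap (W := bW n) (x := x) (c := c) (m := m) (m' := m') (N := N) (D := D) (N' := N')
    (D' := D') (g := g) (B := B) hf hd (fun p hp hpS v hv q => by
      have e : ((bW n q).map fun μ => ((starRingEnd ℂ) (mono (x v) μ))⁻¹) =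
          ((bW n q).map (mono (x v))).map fun a => ((starRingEnd ℂ) a)⁻¹ := by
        rw [List.map_map]
        rfl
      rw [e, hmap p hp hpS v hv q]
      exact hherm p hp hpS v hv q) (fun q => by
      obtain ⟨a1, a2, a3, a4, a5⟩ := hL q
      refine ⟨a1, a2, a3, a4, fun s hs => (a5 s hs).congr fun X => Finset.prod_congr rfl fun p hp => ?_⟩
      obtain ⟨hp1, hpS⟩ := (Finset.mem_filter.1 hp).2
      unfold EF
      refine Finset.prod_congr rfl fun v hv => ?_
      rw [← hmap p hp1 hpS v hv q, List.map_map]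
      rfl) (fun q => by
      obtain ⟨a1, a2, a3, a4, a5⟩ := hL' q
      refine ⟨a1, a2, a3, a4, fun s hs => (a5 s hs).congr fun X => Finset.prod_congr rfl fun p hp => ?_⟩
      obtain ⟨hp1, hpS⟩ := (Finset.mem_filter.1 hp).2
      unfold EF'
      refine Finset.prod_congr rfl fun v hv => ?_
      rw [← hmap p hp1 hpS v hv q, List.map_map]
      rfl) hF hg0 hlit (fun p hp hpS => by
      rcases hbd p hp hpS with ⟨b1, b2⟩ | b1
      · left
        refine ⟨fun v hv q μ hμ => b1 v hv q _ (hmem p hp hpS v hv q μ hμ), ?_⟩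
        refine le_of_eq_of_le ?_ b2
        congr 1
        refine Finset.sum_congr rfl fun v hv => Finset.sum_congr rfl fun q _ => ?_
        rw [hmap p hp hpS v (Finset.mem_filter.1 hv).1 q]
      · right
        exact fun v hv q μ hμ => b1 v hv q _ (hmem p hp hpS v hv q μ hμ))
  refine ⟨fun p hp hpS k => ?_, h2⟩
  rw [← h1 p hp hpS k]
  refine Finset.sum_congr rfl fun q _ => ?_
  rw [lst_eq fun v hv => hn p hp hpS v hv q]

end gap

section arch

variable {Q : Type} [Fintype Q] {c : Q → ℝ} {X : Q → List ℂ} {m m' : Q → List ℂ}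

theorem arch_list
    (hm : ∀ q (z : ℂ), ((m q).map (con z)).sum + ((m' q).map (con z)).sum = ((X q).map (Tc z)).sum)
    (h : ∀ z : ℂ, ∑ q, c q * (((mo (gi (m q)) (1 - z) : ℝ) + mo (gi (m' q)) (1 - z)) -
      (mo (gi (m q)) z + mo (gi (m' q)) z)) = 0) (G : ℂ → ℝ) :
    ∑ q, c q * ((X q).map fun e => G e + G (-e)).sum = 0 := by
  classical
  set n : Q → ℕ := fun q => (X q).length with hn
  have h1 := arch_rel3 (E := Unit) (W := bW n) (lam := fun _ => bX n X) (c := c) (m := m) (m' := m')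
    (fun q z => by
      rw [hm q z, Finset.univ_unique (α := Unit), Finset.sum_singleton, map_comp_dc n (L := X) rfl (Tc z)]) h
  have h2 := list_fun (L := fun q => X q ++ (X q).map Neg.neg) (c := c) (fun z => by
    refine Eq.trans ?_ (h1 z)
    refine Finset.sum_congr rfl fun q _ => ?_
    congr 1
    rw [Finset.univ_unique (α := Unit), Finset.sum_singleton, List.map_append, List.sum_append, List.map_map]
    unfold ct
    rw [map_comp_dc n (L := X) rfl fun e => (open Classical in if e = z then (1 : ℝ) else 0),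
      map_comp_dc n (L := X) rfl fun e => (open Classical in if -e = z then (1 : ℝ) else 0)]
    rfl) G
  refine Eq.trans ?_ h2
  refine Finset.sum_congr rfl fun q _ => ?_
  congr 1
  rw [List.map_append, List.sum_append, List.map_map, List.sum_map_add]
  rfl

end arch

end Pool.Agent.U253.NFD
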